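import Mathlib

/-!
# Multi-directional blocking orders

Definitions for the problem `MP_461429_co` (Rival-Urrutia): families of pairwise disjoint convex
figures in the plane, each with a direction of motion, and their blocking orders.
-/

namespace Pool.Agent.Work.MP_461429_co

/-- The Euclidean plane. -/
abbrev Plane : Type := EuclideanSpace ℝ (Fin 2)

/-- A family, indexed by `ι`, of pairwise disjoint nonempty compact convex figures in the plane,
each of which carries a direction of motion (a nonzero vector). -/
structure Family (ι : Type) where
  /-- the figures -/
  body : ι → Set Plane
  /-- the directions of motion -/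
  dir : ι → Plane
  nonempty_body : ∀ X, (body X).Nonempty
  isCompact_body : ∀ X, IsCompact (body X)
  convex_body : ∀ X, Convex ℝ (body X)
  disjoint_body : ∀ X Y, X ≠ Y → Disjoint (body X) (body Y)
  dir_ne_zero : ∀ X, dir X ≠ 0

namespace Family

variable {ι : Type} (F : Family ι)

/-- `A` blocks `B`: some line parallel to the direction of `B` joins a point of `B` to a point of
`A` in the direction of motion of `B`. -/
def Blocks (A B : ι) : Prop :=
  A ≠ B ∧ ∃ a ∈ F.body A, ∃ b ∈ F.body B, ∃ t : ℝ, 0 < t ∧ a = b + t • F.dir B

/-- The blocking order of the family: the transitive closure of the blocking relation. -/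
def BlockingOrder : ι → ι → Prop := Relation.TransGen F.Blocks

/-- The blocking relation has no directed cycle. -/
def Acyclic : Prop := ∀ X, ¬ F.BlockingOrder X X

/-- The number of distinct directions of motion; two directions are the same when they are
positive multiples of each other, that is, when they span the same ray. -/
noncomputable def directionCount : ℕ :=
  (Set.range fun X => rayOfNeZero ℝ (F.dir X) (F.dir_ne_zero X)).ncard

/-- Every figure of the family is a closed line segment. -/
def IsSegmentFamily : Prop := ∀ X, ∃ p q : Plane, F.body X = segment ℝ p q

end Family

end Pool.Agent.Work.MP_461429_co
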