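import Mathlib
import Pool.Agent.Work.MP_461429_co.Defs

/-!
# A large collection of blocking orders of convex figures

For every function `t : (Fin N × Fin N) → Fin M → Fin (q + 1)` we construct a family of convex
figures with `M + 1` directions of motion whose blocking relation encodes `t`.
-/

namespace Pool.Agent.Work.MP_461429_co

section hull

/-- An upper bound for a linear functional on the vertices holds on the convex hull. -/
theorem hull_le {ι : Type*} (v : ι → Plane) (α β C : ℝ)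
    (h : ∀ j, α * v j 0 + β * v j 1 ≤ C) :
    ∀ c ∈ convexHull ℝ (Set.range v), α * c 0 + β * c 1 ≤ C := by
  have hlin : IsLinearMap ℝ fun w : Plane => α * w 0 + β * w 1 := by
    constructor
    · intro x y
      simp only [PiLp.add_apply]
      ring
    · intro c x
      simp only [PiLp.smul_apply, smul_eq_mul]
      ring
  have hconv := convex_halfSpace_le hlin C
  intro c hc
  exact convexHull_min (s := Set.range v) (by rintro _ ⟨j, rfl⟩; exact h j) hconv hc

end hull

variable (N M q : ℕ)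

/-- The label set: `N × N` figures and `M * ((M + 1) * N) * q` rulers. -/
abbrev Label : Type := (Fin N × Fin N) ⊕ (Fin M × Fin ((M + 1) * N) × Fin q)

/-- The unit length. -/
def unitLen : ℝ := 2 * (q + 1)

/-- The spacing of the grid. -/
def spacing : ℝ := ((M : ℝ) ^ 2 + 2 * N * M + 1) * unitLen q

/-- The vertices of the figure at the grid point `(a, b)` whose parameters are `t`. -/
noncomputable def vertex (a b : Fin N) (t : Fin M → Fin (q + 1)) (j : Fin M) : Plane :=
  !₂[spacing N M q * (a : ℕ) - (((j : ℕ) : ℝ) + 1) ^ 2 * unitLen q + 2 * ((t j : ℕ) : ℝ),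
    spacing N M q * (b : ℕ) - 2 * (((j : ℕ) : ℝ) + 1) * unitLen q]

/-- The position of a ruler. -/
noncomputable def rulerPt (i : Fin M) (r : Fin ((M + 1) * N)) (k : Fin q) : Plane :=
  !₂[spacing N M q * (((r : ℕ) : ℝ) - M * N - (((i : ℕ) : ℝ) + 1)) +
      (((i : ℕ) : ℝ) + 1) ^ 2 * unitLen q + 2 * ((k : ℕ) : ℝ) + 1, -spacing N M q]

/-- The inverse slope of the direction of motion. -/
noncomputable def slope : Label N M q → ℝ
  | Sum.inl _ => -(N : ℝ)
  | Sum.inr (i, _, _) => ((i : ℕ) : ℝ) + 1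

/-- The cores of the figures of the family. -/
noncomputable def coreOf (t : Fin N × Fin N → Fin M → Fin (q + 1)) : Label N M q → Set Plane
  | Sum.inl (a, b) => convexHull ℝ (Set.range (vertex N M q a b (t (a, b))))
  | Sum.inr (i, r, k) => {rulerPt N M q i r k}

/-- The thickening radius. -/
noncomputable def rad : ℝ := 1 / (8 * (N + M + 2))

variable {N M q}

theorem unitLen_pos : 0 < unitLen q := by unfold unitLen; positivity

theorem spacing_pos : 0 < spacing N M q := by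
  unfold spacing
  have := unitLen_pos (q := q)
  positivity

theorem two_q_lt : (2 * q : ℝ) + 2 = unitLen q := by unfold unitLen; ring

theorem spacing_eq : spacing N M q =
    ((M : ℝ) ^ 2 + 2 * N * M) * unitLen q + unitLen q := by unfold spacing; ring

/-- The figures lie above the rulers. -/
theorem fig_above (hN : 1 ≤ N) (a b : Fin N) (t : Fin M → Fin (q + 1)) :
    ∀ c ∈ convexHull ℝ (Set.range (vertex N M q a b t)), -spacing N M q + 1 ≤ c 1 := by
  intro c hc
  have h := hull_le (vertex N M q a b t) 0 (-1) (2 * M * unitLen q) ?_ c hc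
  · have hu := unitLen_pos (q := q)
    have hu2 : 1 ≤ unitLen q := by
      have := two_q_lt (q := q)
      have hq : (0 : ℝ) ≤ q := Nat.cast_nonneg _
      linarith
    have hN' : (1 : ℝ) ≤ N := by exact_mod_cast hN
    have hM : (0 : ℝ) ≤ M := Nat.cast_nonneg M
    have h1 : 2 * (M : ℝ) * unitLen q + 1 ≤ spacing N M q := by
      rw [spacing_eq]
      have : 2 * (M : ℝ) ≤ (M : ℝ) ^ 2 + 2 * N * M := by nlinarith
      nlinarith
    linarith
  · intro j
    simp only [vertex, PiLp.toLp_apply, Matrix.cons_val_zero, Matrix.cons_val_one]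
    have hu := unitLen_pos (q := q)
    have hj : ((j : ℕ) : ℝ) + 1 ≤ M := by exact_mod_cast j.2
    have hb : (0 : ℝ) ≤ spacing N M q * ((b : ℕ) : ℝ) :=
      mul_nonneg spacing_pos.le (Nat.cast_nonneg _)
    nlinarith

/-- Upper bound for the functional of the figures' own direction. -/
theorem fig_own_le (a b : Fin N) (t : Fin M → Fin (q + 1)) :
    ∀ c ∈ convexHull ℝ (Set.range (vertex N M q a b t)),
      c 0 + N * c 1 ≤ spacing N M q * (((a : ℕ) : ℝ) + N * ((b : ℕ) : ℝ)) + 2 * q := by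
  intro c hc
  have h := hull_le (vertex N M q a b t) 1 N
    (spacing N M q * (((a : ℕ) : ℝ) + N * ((b : ℕ) : ℝ)) + 2 * q) ?_ c hc
  · linarith
  · intro j
    simp only [vertex, PiLp.toLp_apply, Matrix.cons_val_zero, Matrix.cons_val_one]
    have hu := unitLen_pos (q := q)
    have hj : (0 : ℝ) ≤ ((j : ℕ) : ℝ) := Nat.cast_nonneg _
    have ht : ((t j : ℕ) : ℝ) ≤ q := by exact_mod_cast Nat.lt_succ_iff.1 (t j).2
    have hN : (0 : ℝ) ≤ N := Nat.cast_nonneg _
    have h1 : 0 ≤ (((j : ℕ) : ℝ) + 1) ^ 2 * unitLen q := by positivity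
    have h2 : 0 ≤ (N : ℝ) * (2 * (((j : ℕ) : ℝ) + 1) * unitLen q) := by positivity
    nlinarith

/-- Lower bound for the functional of the figures' own direction. -/
theorem fig_own_ge (a b : Fin N) (t : Fin M → Fin (q + 1)) :
    ∀ c ∈ convexHull ℝ (Set.range (vertex N M q a b t)),
      spacing N M q * (((a : ℕ) : ℝ) + N * ((b : ℕ) : ℝ)) -
        ((M : ℝ) ^ 2 + 2 * N * M) * unitLen q ≤ c 0 + N * c 1 := by
  intro c hc
  have h := hull_le (vertex N M q a b t) (-1) (-N)
    (-(spacing N M q * (((a : ℕ) : ℝ) + N * ((b : ℕ) : ℝ)) -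
        ((M : ℝ) ^ 2 + 2 * N * M) * unitLen q)) ?_ c hc
  · linarith
  · intro j
    simp only [vertex, PiLp.toLp_apply, Matrix.cons_val_zero, Matrix.cons_val_one]
    have hu := unitLen_pos (q := q)
    have hj0 : (0 : ℝ) ≤ ((j : ℕ) : ℝ) := Nat.cast_nonneg _
    have hj : ((j : ℕ) : ℝ) + 1 ≤ M := by exact_mod_cast j.2
    have ht : (0 : ℝ) ≤ ((t j : ℕ) : ℝ) := Nat.cast_nonneg _
    have hN : (0 : ℝ) ≤ N := Nat.cast_nonneg _
    have h1 : (((j : ℕ) : ℝ) + 1) ^ 2 * unitLen q ≤ (M : ℝ) ^ 2 * unitLen q := by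
      apply mul_le_mul_of_nonneg_right _ hu.le
      exact pow_le_pow_left₀ (by positivity) hj 2
    have h2 : (N : ℝ) * (2 * (((j : ℕ) : ℝ) + 1) * unitLen q) ≤ (2 * N * M) * unitLen q := by
      have : (N : ℝ) * (((j : ℕ) : ℝ) + 1) ≤ N * M := mul_le_mul_of_nonneg_left hj hN
      nlinarith
    nlinarith

/-- The figures are separated by the functional of their own direction. -/
theorem fig_own_lt (a b a' b' : Fin N) (t t' : Fin M → Fin (q + 1))
    (h : (a : ℕ) + N * (b : ℕ) < (a' : ℕ) + N * (b' : ℕ)) :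
    ∀ c ∈ convexHull ℝ (Set.range (vertex N M q a b t)),
      ∀ c' ∈ convexHull ℝ (Set.range (vertex N M q a' b' t')),
        c 0 + N * c 1 + 1 ≤ c' 0 + N * c' 1 := by
  intro c hc c' hc'
  have h1 := fig_own_le a b t c hc
  have h2 := fig_own_ge a' b' t' c' hc'
  have h3 : (((a : ℕ) : ℝ) + N * ((b : ℕ) : ℝ)) + 1 ≤ (((a' : ℕ) : ℝ) + N * ((b' : ℕ) : ℝ)) := by
    exact_mod_cast h
  have h4 := two_q_lt (q := q)
  have h5 := spacing_eq (N := N) (M := M) (q := q)
  have h6 := spacing_pos (N := N) (M := M) (q := q)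
  have h7 := mul_le_mul_of_nonneg_left h3 h6.le
  nlinarith

theorem grid_inj {a b a' b' : Fin N} (h : (a : ℕ) + N * (b : ℕ) = (a' : ℕ) + N * (b' : ℕ)) :
    (a, b) = (a', b') := by
  have h1 : ((a : ℕ) + N * (b : ℕ)) % N = ((a' : ℕ) + N * (b' : ℕ)) % N := by rw [h]
  rw [Nat.add_mul_mod_self_left, Nat.add_mul_mod_self_left, Nat.mod_eq_of_lt a.2,
    Nat.mod_eq_of_lt a'.2] at h1
  have hN : 0 < N := lt_of_le_of_lt (Nat.zero_le _) a.2
  have h2 : N * (b : ℕ) = N * (b' : ℕ) := by omega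
  have h3 : (b : ℕ) = b' := Nat.eq_of_mul_eq_mul_left hN h2
  rw [Fin.ext h1, Fin.ext h3]

/-- Upper bound for the functional of a ruler direction. -/
theorem fig_ruler_le (a b : Fin N) (t : Fin M → Fin (q + 1)) (i : Fin M) :
    ∀ c ∈ convexHull ℝ (Set.range (vertex N M q a b t)),
      c 0 - (((i : ℕ) : ℝ) + 1) * c 1 ≤
        spacing N M q * (((a : ℕ) : ℝ) - (((i : ℕ) : ℝ) + 1) * ((b : ℕ) : ℝ)) +
          (((i : ℕ) : ℝ) + 1) ^ 2 * unitLen q + 2 * ((t i : ℕ) : ℝ) := by
  intro c hc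
  have h := hull_le (vertex N M q a b t) 1 (-(((i : ℕ) : ℝ) + 1))
    (spacing N M q * (((a : ℕ) : ℝ) - (((i : ℕ) : ℝ) + 1) * ((b : ℕ) : ℝ)) +
          (((i : ℕ) : ℝ) + 1) ^ 2 * unitLen q + 2 * ((t i : ℕ) : ℝ)) ?_ c hc
  · linarith
  · intro j
    simp only [vertex, PiLp.toLp_apply, Matrix.cons_val_zero, Matrix.cons_val_one]
    by_cases hij : j = i
    · subst hij
      apply le_of_eq
      ring
    · have hne : ((j : ℕ) : ℤ) ≠ ((i : ℕ) : ℤ) := by
        intro h
        exact hij (Fin.ext (by exact_mod_cast h))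
      have hsq : (1 : ℝ) ≤ (((i : ℕ) : ℝ) - ((j : ℕ) : ℝ)) ^ 2 := by
        have : (1 : ℤ) ≤ (((i : ℕ) : ℤ) - ((j : ℕ) : ℤ)) ^ 2 := by
          have h0 : ((i : ℕ) : ℤ) - ((j : ℕ) : ℤ) ≠ 0 := sub_ne_zero.2 (Ne.symm hne)
          have := sq_pos_of_ne_zero h0
          omega
        exact_mod_cast this
      have hu := unitLen_pos (q := q)
      have htj : ((t j : ℕ) : ℝ) ≤ q := by exact_mod_cast Nat.lt_succ_iff.1 (t j).2
      have hti : (0 : ℝ) ≤ ((t i : ℕ) : ℝ) := Nat.cast_nonneg _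
      have h4 := two_q_lt (q := q)
      have h5 : unitLen q ≤ (((i : ℕ) : ℝ) - ((j : ℕ) : ℝ)) ^ 2 * unitLen q := by nlinarith
      nlinarith

/-- Lower bound for the functional of a ruler direction. -/
theorem fig_ruler_ge (a b : Fin N) (t : Fin M → Fin (q + 1)) (i : Fin M) :
    ∀ c ∈ convexHull ℝ (Set.range (vertex N M q a b t)),
      spacing N M q * (((a : ℕ) : ℝ) - (((i : ℕ) : ℝ) + 1) * ((b : ℕ) : ℝ)) +
          (((i : ℕ) : ℝ) + 1) ^ 2 * unitLen q - (M : ℝ) ^ 2 * unitLen q ≤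
        c 0 - (((i : ℕ) : ℝ) + 1) * c 1 := by
  intro c hc
  have h := hull_le (vertex N M q a b t) (-1) (((i : ℕ) : ℝ) + 1)
    (-(spacing N M q * (((a : ℕ) : ℝ) - (((i : ℕ) : ℝ) + 1) * ((b : ℕ) : ℝ)) +
          (((i : ℕ) : ℝ) + 1) ^ 2 * unitLen q - (M : ℝ) ^ 2 * unitLen q)) ?_ c hc
  · linarith
  · intro j
    simp only [vertex, PiLp.toLp_apply, Matrix.cons_val_zero, Matrix.cons_val_one]
    have hu := unitLen_pos (q := q)
    have htj : (0 : ℝ) ≤ ((t j : ℕ) : ℝ) := Nat.cast_nonneg _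
    have hi : ((i : ℕ) : ℝ) + 1 ≤ M := by exact_mod_cast i.2
    have hj : ((j : ℕ) : ℝ) + 1 ≤ M := by exact_mod_cast j.2
    have hi0 : (0 : ℝ) ≤ ((i : ℕ) : ℝ) := Nat.cast_nonneg _
    have hj0 : (0 : ℝ) ≤ ((j : ℕ) : ℝ) := Nat.cast_nonneg _
    have hsq : (((i : ℕ) : ℝ) - ((j : ℕ) : ℝ)) ^ 2 ≤ (M : ℝ) ^ 2 := by
      apply sq_le_sq'
      · linarith
      · linarith
    have h5 := mul_le_mul_of_nonneg_right hsq hu.le
    nlinarith

/-- The value of the functional of a ruler direction at a ruler. -/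
theorem ruler_value (i : Fin M) (r : Fin ((M + 1) * N)) (k : Fin q) :
    rulerPt N M q i r k 0 - (((i : ℕ) : ℝ) + 1) * rulerPt N M q i r k 1 =
      spacing N M q * (((r : ℕ) : ℝ) - M * N) + (((i : ℕ) : ℝ) + 1) ^ 2 * unitLen q +
        2 * ((k : ℕ) : ℝ) + 1 := by
  simp only [rulerPt, PiLp.toLp_apply, Matrix.cons_val_zero, Matrix.cons_val_one]
  ring

theorem ruler_y (i : Fin M) (r : Fin ((M + 1) * N)) (k : Fin q) :
    rulerPt N M q i r k 1 = -spacing N M q := by
  simp [rulerPt]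

/-- Key computation: which figures contain a point with the same value as a given ruler. -/
theorem exists_value_iff (hM : 2 ≤ M) (a b : Fin N) (t : Fin M → Fin (q + 1)) (i : Fin M)
    (r : Fin ((M + 1) * N)) (k : Fin q) :
    ((∃ c ∈ convexHull ℝ (Set.range (vertex N M q a b t)),
      |(c 0 - (((i : ℕ) : ℝ) + 1) * c 1) -
        (rulerPt N M q i r k 0 - (((i : ℕ) : ℝ) + 1) * rulerPt N M q i r k 1)| < 1) →
      ((a : ℕ) + M * N = (r : ℕ) + ((i : ℕ) + 1) * (b : ℕ) ∧ (k : ℕ) < (t i : ℕ))) ∧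
    (((a : ℕ) + M * N = (r : ℕ) + ((i : ℕ) + 1) * (b : ℕ) ∧ (k : ℕ) < (t i : ℕ)) →
      ∃ c ∈ convexHull ℝ (Set.range (vertex N M q a b t)),
      c 0 - (((i : ℕ) : ℝ) + 1) * c 1 =
        rulerPt N M q i r k 0 - (((i : ℕ) : ℝ) + 1) * rulerPt N M q i r k 1) := by
  rw [ruler_value]
  have hu := unitLen_pos (q := q)
  have hS := spacing_pos (N := N) (M := M) (q := q)
  have h4 := two_q_lt (q := q)
  have h5 := spacing_eq (N := N) (M := M) (q := q)
  have hk : ((k : ℕ) : ℝ) + 1 ≤ q := by exact_mod_cast k.2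
  have hk0 : (0 : ℝ) ≤ ((k : ℕ) : ℝ) := Nat.cast_nonneg _
  have hti : ((t i : ℕ) : ℝ) ≤ q := by exact_mod_cast Nat.lt_succ_iff.1 (t i).2
  have hN0 : (0 : ℝ) ≤ N := Nat.cast_nonneg _
  have hM0 : (0 : ℝ) ≤ M := Nat.cast_nonneg _
  constructor
  · rintro ⟨c, hc, hval⟩
    have h1 := fig_ruler_le a b t i c hc
    have h2 := fig_ruler_ge a b t i c hc
    rw [abs_lt] at hval
    obtain ⟨hval1, hval2⟩ := hval
    -- the integer shift
    set Δ : ℤ := ((r : ℕ) : ℤ) - M * N - (((a : ℕ) : ℤ) - (((i : ℕ) : ℤ) + 1) * ((b : ℕ) : ℤ))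
      with hΔ
    have hΔR : (Δ : ℝ) = ((r : ℕ) : ℝ) - M * N -
        (((a : ℕ) : ℝ) - (((i : ℕ) : ℝ) + 1) * ((b : ℕ) : ℝ)) := by
      rw [hΔ]; push_cast; ring
    have h6 : spacing N M q * Δ + 2 * ((k : ℕ) : ℝ) < 2 * ((t i : ℕ) : ℝ) := by
      rw [hΔR]; linarith
    have h7 : -((M : ℝ) ^ 2 * unitLen q) ≤ spacing N M q * Δ + 2 * ((k : ℕ) : ℝ) + 2 := by
      rw [hΔR]; linarith
    have hΔ0 : Δ = 0 := by
      rcases lt_trichotomy Δ 0 with h | h | h
      · exfalso
        have h8 : (Δ : ℝ) ≤ -1 := by exact_mod_cast Int.le_sub_one_of_lt h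
        have h9 := mul_le_mul_of_nonneg_left h8 hS.le
        have h10 : 0 ≤ 2 * (N : ℝ) * M * unitLen q := by positivity
        nlinarith
      · exact h
      · exfalso
        have h8 : (1 : ℝ) ≤ (Δ : ℝ) := by exact_mod_cast h
        have h9 := mul_le_mul_of_nonneg_left h8 hS.le
        have h10 : 0 ≤ ((M : ℝ) ^ 2 + 2 * (N : ℝ) * M) * unitLen q := by positivity
        nlinarith
    constructor
    · have : (((a : ℕ) + M * N : ℕ) : ℤ) = (((r : ℕ) + ((i : ℕ) + 1) * (b : ℕ) : ℕ) : ℤ) := by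
        push_cast
        linarith
      exact_mod_cast this
    · rw [hΔ0, Int.cast_zero, mul_zero, zero_add] at h6
      have : 2 * (k : ℕ) < 2 * (t i : ℕ) := by exact_mod_cast h6
      omega
  · rintro ⟨heq, hkt⟩
    have heqR : ((r : ℕ) : ℝ) - M * N = ((a : ℕ) : ℝ) - (((i : ℕ) : ℝ) + 1) * ((b : ℕ) : ℝ) := by
      have : (((a : ℕ) + M * N : ℕ) : ℝ) = (((r : ℕ) + ((i : ℕ) + 1) * (b : ℕ) : ℕ) : ℝ) := by
        rw [heq]
      push_cast at this
      linarith
    rw [heqR]
    -- another index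
    obtain ⟨j, hj⟩ : ∃ j : Fin M, j ≠ i := by
      have : Nontrivial (Fin M) := Fin.nontrivial_iff_two_le.2 hM
      exact exists_ne i
    have hval : ∀ l : Fin M, vertex N M q a b t l 0 - (((i : ℕ) : ℝ) + 1) * vertex N M q a b t l 1 =
        spacing N M q * (((a : ℕ) : ℝ) - (((i : ℕ) : ℝ) + 1) * ((b : ℕ) : ℝ)) +
          (((i : ℕ) : ℝ) + 1) ^ 2 * unitLen q - (((i : ℕ) : ℝ) - ((l : ℕ) : ℝ)) ^ 2 * unitLen q +
          2 * ((t l : ℕ) : ℝ) := by
      intro l
      simp only [vertex, PiLp.toLp_apply, Matrix.cons_val_zero, Matrix.cons_val_one]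
      ring
    have hsq : (1 : ℝ) ≤ (((i : ℕ) : ℝ) - ((j : ℕ) : ℝ)) ^ 2 := by
      have : (1 : ℤ) ≤ (((i : ℕ) : ℤ) - ((j : ℕ) : ℤ)) ^ 2 := by
        have h0 : ((i : ℕ) : ℤ) - ((j : ℕ) : ℤ) ≠ 0 := by
          intro h
          exact hj (Fin.ext (by omega))
        have := sq_pos_of_ne_zero h0
        omega
      exact_mod_cast this
    have htj : ((t j : ℕ) : ℝ) ≤ q := by exact_mod_cast Nat.lt_succ_iff.1 (t j).2
    have hkt' : ((k : ℕ) : ℝ) + 1 ≤ ((t i : ℕ) : ℝ) := by exact_mod_cast hkt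
    have hconn : IsPreconnected (convexHull ℝ (Set.range (vertex N M q a b t))) :=
      (convex_convexHull ℝ _).isPreconnected
    have hcont : ContinuousOn (fun c : Plane => c 0 - (((i : ℕ) : ℝ) + 1) * c 1)
        (convexHull ℝ (Set.range (vertex N M q a b t))) := by
      apply Continuous.continuousOn
      fun_prop
    have hmem : ∀ l, vertex N M q a b t l ∈ convexHull ℝ (Set.range (vertex N M q a b t)) :=
      fun l => subset_convexHull ℝ _ ⟨l, rfl⟩
    have hivt := hconn.intermediate_value (hmem j) (hmem i) hcont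
    obtain ⟨c, hc, hcv⟩ := hivt (show
      spacing N M q * (((a : ℕ) : ℝ) - (((i : ℕ) : ℝ) + 1) * ((b : ℕ) : ℝ)) +
        (((i : ℕ) : ℝ) + 1) ^ 2 * unitLen q + 2 * ((k : ℕ) : ℝ) + 1 ∈ _ by
      simp only [hval]
      constructor
      · have h5 : unitLen q ≤ (((i : ℕ) : ℝ) - ((j : ℕ) : ℝ)) ^ 2 * unitLen q := by nlinarith
        linarith
      · rw [sub_self]
        linarith)
    exact ⟨c, hc, hcv⟩


theorem rad_pos : 0 < rad N M := by unfold rad; positivity

theorem rad_mul : (N + M + 2 : ℝ) * rad N M = 1 / 8 := by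
  unfold rad
  have : (N + M + 2 : ℝ) ≠ 0 := by positivity
  field_simp

/-- A point of the thickening of a compact set is close to a point of the set. -/
theorem exists_close {K : Set Plane} (hK : IsCompact K) {c : Plane}
    (hc : c ∈ Metric.cthickening (rad N M) K) :
    ∃ c0 ∈ K, |c 0 - c0 0| ≤ rad N M ∧ |c 1 - c0 1| ≤ rad N M := by
  rw [hK.cthickening_eq_biUnion_closedBall rad_pos.le, Set.mem_iUnion₂] at hc
  obtain ⟨c0, h0, h1⟩ := hc
  rw [Metric.mem_closedBall, dist_eq_norm] at h1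
  refine ⟨c0, h0, ?_, ?_⟩
  · have h2 := PiLp.norm_apply_le (c - c0) 0
    rw [PiLp.sub_apply, Real.norm_eq_abs] at h2
    exact h2.trans h1
  · have h2 := PiLp.norm_apply_le (c - c0) 1
    rw [PiLp.sub_apply, Real.norm_eq_abs] at h2
    exact h2.trans h1

/-- Small changes of the point change the functionals only a little. -/
theorem functional_close {c c0 : Plane} (σ : ℝ) (hσ : |σ| ≤ N + M) (h0 : |c 0 - c0 0| ≤ rad N M)
    (h1 : |c 1 - c0 1| ≤ rad N M) : |(c 0 - σ * c 1) - (c0 0 - σ * c0 1)| ≤ 1 / 8 := by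
  have h2 : (c 0 - σ * c 1) - (c0 0 - σ * c0 1) = (c 0 - c0 0) - σ * (c 1 - c0 1) := by ring
  rw [h2]
  calc |(c 0 - c0 0) - σ * (c 1 - c0 1)| ≤ |c 0 - c0 0| + |σ * (c 1 - c0 1)| := abs_sub _ _
    _ = |c 0 - c0 0| + |σ| * |c 1 - c0 1| := by rw [abs_mul]
    _ ≤ rad N M + (N + M) * rad N M :=
        add_le_add h0 (mul_le_mul hσ h1 (abs_nonneg _) (by positivity))
    _ ≤ 1 / 8 := by
        have h3 := rad_mul (N := N) (M := M)
        have h4 := rad_pos (N := N) (M := M)
        nlinarith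

theorem rad_le : rad N M ≤ 1 / 16 := by
  have h3 := rad_mul (N := N) (M := M)
  have h4 := rad_pos (N := N) (M := M)
  have h5 : (0 : ℝ) ≤ N := Nat.cast_nonneg _
  have h6 : (0 : ℝ) ≤ M := Nat.cast_nonneg _
  nlinarith

theorem int_division_unique {S A A' B B' : ℤ} (hB0 : 0 ≤ B) (hB0' : 0 ≤ B') (hB : B < S)
    (hB' : B' < S) (h : S * A + B = S * A' + B') : A = A' := by
  rcases lt_trichotomy A A' with h1 | h1 | h1
  · exfalso; nlinarith
  · exact h1
  · exfalso; nlinarith

/-- The abscissa of a ruler, an integer. -/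
def rulerX (N M q : ℕ) (i : Fin M) (r : Fin ((M + 1) * N)) (k : Fin q) : ℤ :=
  (((M : ℤ) ^ 2 + 2 * N * M + 1) * (2 * (q + 1))) * (((r : ℕ) : ℤ) - M * N - (((i : ℕ) : ℤ) + 1)) +
      ((((i : ℕ) : ℤ) + 1) ^ 2 * (2 * (q + 1)) + 2 * (k : ℕ) + 1)

theorem rulerPt_zero (i : Fin M) (r : Fin ((M + 1) * N)) (k : Fin q) :
    rulerPt N M q i r k 0 = (rulerX N M q i r k : ℝ) := by
  simp only [rulerPt, PiLp.toLp_apply, Matrix.cons_val_zero]
  unfold spacing unitLen rulerX
  push_cast
  ring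

theorem rulerX_injective {i i' : Fin M} {r r' : Fin ((M + 1) * N)} {k k' : Fin q}
    (hkey : rulerX N M q i r k = rulerX N M q i' r' k') : (i, r, k) = (i', r', k') := by
  unfold rulerX at hkey
  have hbound : ∀ (i : Fin M) (k : Fin q),
      0 ≤ (((i : ℕ) : ℤ) + 1) ^ 2 * (2 * (q + 1)) + 2 * ((k : ℕ) : ℤ) + 1 ∧
      (((i : ℕ) : ℤ) + 1) ^ 2 * (2 * (q + 1)) + 2 * ((k : ℕ) : ℤ) + 1 <
        ((M : ℤ) ^ 2 + 2 * N * M + 1) * (2 * (q + 1)) := by
    intro i k
    have hk : ((k : ℕ) : ℤ) + 1 ≤ q := by exact_mod_cast k.2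
    have hi : ((i : ℕ) : ℤ) + 1 ≤ M := by exact_mod_cast i.2
    have hsq : (((i : ℕ) : ℤ) + 1) ^ 2 ≤ (M : ℤ) ^ 2 := pow_le_pow_left₀ (by positivity) hi 2
    have h1 : (((i : ℕ) : ℤ) + 1) ^ 2 * (2 * (q + 1)) ≤ (M : ℤ) ^ 2 * (2 * (q + 1)) :=
      mul_le_mul_of_nonneg_right hsq (by positivity)
    have h2 : 0 ≤ (2 * (N : ℤ) * M) * (2 * (q + 1)) := by positivity
    constructor
    · positivity
    · linarith
  obtain ⟨hB0, hBS⟩ := hbound i k
  obtain ⟨hB0', hBS'⟩ := hbound i' k'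
  have hAA := int_division_unique hB0 hB0' hBS hBS' hkey
  have hBB : (2 * ((q : ℤ) + 1)) * (((i : ℕ) : ℤ) + 1) ^ 2 + (2 * ((k : ℕ) : ℤ) + 1) =
      (2 * ((q : ℤ) + 1)) * (((i' : ℕ) : ℤ) + 1) ^ 2 + (2 * ((k' : ℕ) : ℤ) + 1) := by
    rw [hAA] at hkey
    linarith
  have hk : ((k : ℕ) : ℤ) + 1 ≤ q := by exact_mod_cast k.2
  have hk' : ((k' : ℕ) : ℤ) + 1 ≤ q := by exact_mod_cast k'.2
  have hii : (((i : ℕ) : ℤ) + 1) ^ 2 = (((i' : ℕ) : ℤ) + 1) ^ 2 :=
    int_division_unique (by positivity) (by positivity) (by linarith) (by linarith) hBB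
  have hii' : ((i : ℕ) : ℤ) = (i' : ℕ) := by
    have h1 : (0 : ℤ) ≤ ((i : ℕ) : ℤ) + 1 := by positivity
    have h2 : (0 : ℤ) ≤ ((i' : ℕ) : ℤ) + 1 := by positivity
    have h3 := (sq_eq_sq₀ h1 h2).1 hii
    linarith
  have hkk : ((k : ℕ) : ℤ) = (k' : ℕ) := by
    rw [hii] at hBB
    linarith
  have hrr : ((r : ℕ) : ℤ) = (r' : ℕ) := by
    rw [hii'] at hAA
    linarith
  have e1 : i = i' := Fin.ext (by exact_mod_cast hii')
  have e2 : r = r' := Fin.ext (by exact_mod_cast hrr)
  have e3 : k = k' := Fin.ext (by exact_mod_cast hkk)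
  rw [e1, e2, e3]

/-- Distinct rulers are at horizontal distance at least `1`. -/
theorem ruler_far {i i' : Fin M} {r r' : Fin ((M + 1) * N)} {k k' : Fin q}
    (h : (i, r, k) ≠ (i', r', k')) : 1 ≤ |rulerPt N M q i r k 0 - rulerPt N M q i' r' k' 0| := by
  rw [rulerPt_zero, rulerPt_zero, ← Int.cast_sub, ← Int.cast_abs]
  have h1 : rulerX N M q i r k - rulerX N M q i' r' k' ≠ 0 :=
    sub_ne_zero.2 fun h' => h (rulerX_injective h')
  have h2 : (1 : ℝ) ≤ ((|rulerX N M q i r k - rulerX N M q i' r' k'| : ℤ) : ℝ) := by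
    exact_mod_cast Int.one_le_abs h1
  exact h2

theorem isCompact_coreOf (t : Fin N × Fin N → Fin M → Fin (q + 1)) (X : Label N M q) :
    IsCompact (coreOf N M q t X) := by
  rcases X with ⟨a, b⟩ | ⟨i, r, k⟩
  · exact (Set.finite_range _).isCompact_convexHull ℝ
  · exact isCompact_singleton

theorem convex_coreOf (t : Fin N × Fin N → Fin M → Fin (q + 1)) (X : Label N M q) :
    Convex ℝ (coreOf N M q t X) := by
  rcases X with ⟨a, b⟩ | ⟨i, r, k⟩
  · exact convex_convexHull ℝ _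
  · exact convex_singleton _

theorem nonempty_coreOf (hM : 2 ≤ M) (t : Fin N × Fin N → Fin M → Fin (q + 1))
    (X : Label N M q) : (coreOf N M q t X).Nonempty := by
  rcases X with ⟨a, b⟩ | ⟨i, r, k⟩
  · have : Nonempty (Fin M) := ⟨⟨0, by omega⟩⟩
    exact (Set.range_nonempty _).convexHull
  · exact Set.singleton_nonempty _

/-- The figures of the family: thickened cores. -/
noncomputable def bodyOf (t : Fin N × Fin N → Fin M → Fin (q + 1)) (X : Label N M q) :
    Set Plane := Metric.cthickening (rad N M) (coreOf N M q t X)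

/-- A point of a figure is close to a point of its core. -/
theorem exists_core {t : Fin N × Fin N → Fin M → Fin (q + 1)} {X : Label N M q} {c : Plane}
    (hc : c ∈ bodyOf t X) :
    ∃ c0 ∈ coreOf N M q t X, |c 0 - c0 0| ≤ rad N M ∧ |c 1 - c0 1| ≤ rad N M :=
  exists_close (isCompact_coreOf t X) hc

/-- The points of a thickened figure. -/
theorem body_fig_above (hN : 1 ≤ N) {t : Fin N × Fin N → Fin M → Fin (q + 1)} {a b : Fin N}
    {c : Plane} (hc : c ∈ bodyOf t (Sum.inl (a, b))) : -spacing N M q + 1 / 2 < c 1 := by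
  obtain ⟨c0, hc0, -, h1⟩ := exists_core hc
  have h2 := fig_above hN a b _ c0 hc0
  have h3 := rad_le (N := N) (M := M)
  rw [abs_le] at h1
  linarith [h1.1]

/-- The points of a thickened ruler. -/
theorem body_ruler {t : Fin N × Fin N → Fin M → Fin (q + 1)} {i : Fin M}
    {r : Fin ((M + 1) * N)} {k : Fin q} {c : Plane} (hc : c ∈ bodyOf t (Sum.inr (i, r, k))) :
    |c 0 - rulerPt N M q i r k 0| ≤ rad N M ∧ |c 1 - rulerPt N M q i r k 1| ≤ rad N M := by
  obtain ⟨c0, hc0, h0, h1⟩ := exists_core hc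
  have h2 : c0 = rulerPt N M q i r k := hc0
  rw [h2] at h0 h1
  exact ⟨h0, h1⟩

theorem body_ruler_y {t : Fin N × Fin N → Fin M → Fin (q + 1)} {i : Fin M}
    {r : Fin ((M + 1) * N)} {k : Fin q} {c : Plane} (hc : c ∈ bodyOf t (Sum.inr (i, r, k))) :
    |c 1 + spacing N M q| ≤ rad N M := by
  have h := (body_ruler hc).2
  rw [ruler_y, sub_neg_eq_add] at h
  exact h

/-- The thickened figures are separated by the functional of their own direction. -/
theorem body_own_lt {t : Fin N × Fin N → Fin M → Fin (q + 1)} {a b a' b' : Fin N}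
    (h : (a : ℕ) + N * (b : ℕ) < (a' : ℕ) + N * (b' : ℕ)) {c c' : Plane}
    (hc : c ∈ bodyOf t (Sum.inl (a, b))) (hc' : c' ∈ bodyOf t (Sum.inl (a', b'))) :
    c 0 - (-(N : ℝ)) * c 1 < c' 0 - (-(N : ℝ)) * c' 1 := by
  obtain ⟨c0, hc0, h0, h1⟩ := exists_core hc
  obtain ⟨c0', hc0', h0', h1'⟩ := exists_core hc'
  have h2 := fig_own_lt a b a' b' _ _ h c0 hc0 c0' hc0'
  have hσ : |(-(N : ℝ))| ≤ N + M := by
    rw [abs_neg, abs_of_nonneg (Nat.cast_nonneg _)]
    have : (0 : ℝ) ≤ M := Nat.cast_nonneg _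
    linarith
  have h3 := functional_close (-(N : ℝ)) hσ h0 h1
  have h4 := functional_close (-(N : ℝ)) hσ h0' h1'
  rw [abs_le] at h3 h4
  linarith [h3.1, h3.2, h4.1, h4.2]

/-- The family of convex figures attached to `t`. -/
noncomputable def figFamily (hN : 1 ≤ N) (hM : 2 ≤ M)
    (t : Fin N × Fin N → Fin M → Fin (q + 1)) : Family (Label N M q) where
  body := bodyOf t
  dir := fun X => !₂[slope N M q X, 1]
  nonempty_body := fun X =>
    (nonempty_coreOf hM t X).mono (Metric.self_subset_cthickening _)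
  isCompact_body := fun X => (isCompact_coreOf t X).cthickening
  convex_body := fun X => (convex_coreOf t X).cthickening _
  disjoint_body := by
    have h16 := rad_le (N := N) (M := M)
    rintro (⟨a, b⟩ | ⟨i, r, k⟩) (⟨a', b'⟩ | ⟨i', r', k'⟩) hne
    · rw [Set.disjoint_left]
      intro c hc hc'
      rcases lt_trichotomy ((a : ℕ) + N * (b : ℕ)) ((a' : ℕ) + N * (b' : ℕ)) with h | h | h
      · exact lt_irrefl _ (body_own_lt h hc hc')
      · exact hne (by rw [grid_inj h])
      · exact lt_irrefl _ (body_own_lt h hc' hc)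
    · rw [Set.disjoint_left]
      intro c hc hc'
      have h1 := body_fig_above hN hc
      have h2 := body_ruler_y hc'
      rw [abs_le] at h2
      linarith [h2.2]
    · rw [Set.disjoint_left]
      intro c hc hc'
      have h1 := body_fig_above hN hc'
      have h2 := body_ruler_y hc
      rw [abs_le] at h2
      linarith [h2.2]
    · rw [Set.disjoint_left]
      intro c hc hc'
      have h1 := (body_ruler hc).1
      have h2 := (body_ruler hc').1
      have h3 := ruler_far (N := N) (M := M) (q := q) (i := i) (i' := i') (r := r) (r' := r')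
        (k := k) (k' := k') (fun h => hne (by rw [h]))
      rw [abs_le] at h1 h2
      rcases le_abs.1 h3 with h4 | h4 <;> linarith [h1.1, h1.2, h2.1, h2.2]
  dir_ne_zero := by
    intro X h
    have := congrArg (fun p : Plane => p 1) h
    simp at this

/-- All the figures have nonempty interior. -/
theorem figFamily_interior (hN : 1 ≤ N) (hM : 2 ≤ M)
    (t : Fin N × Fin N → Fin M → Fin (q + 1)) (X : Label N M q) :
    (interior ((figFamily hN hM t).body X)).Nonempty := by
  obtain ⟨c, hc⟩ := nonempty_coreOf hM t X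
  refine ⟨c, ?_⟩
  have h1 : Metric.ball c (rad N M) ⊆ bodyOf t X :=
    Metric.ball_subset_closedBall.trans (Metric.closedBall_subset_cthickening hc _)
  exact interior_maximal h1 Metric.isOpen_ball (Metric.mem_ball_self rad_pos)

/-- The combinatorial description of the blocking relation of `figFamily`. -/
def CombBlocks (t : Fin N × Fin N → Fin M → Fin (q + 1)) : Label N M q → Label N M q → Prop
  | Sum.inl (a, b), Sum.inr (i, r, k) =>
      (a : ℕ) + M * N = (r : ℕ) + ((i : ℕ) + 1) * (b : ℕ) ∧ (k : ℕ) < (t (a, b) i : ℕ)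
  | _, _ => False

theorem figFamily_blocks (hN : 1 ≤ N) (hM : 2 ≤ M) (t : Fin N × Fin N → Fin M → Fin (q + 1)) :
    (figFamily hN hM t).Blocks = CombBlocks t := by
  funext A B
  apply propext
  have h16 := rad_le (N := N) (M := M)
  have hrpos := rad_pos (N := N) (M := M)
  have hcoord : ∀ (a b : Plane) (s : ℝ) (X : Label N M q),
      a = b + s • (!₂[slope N M q X, 1] : Plane) → a 1 = b 1 + s ∧
        a 0 - slope N M q X * a 1 = b 0 - slope N M q X * b 1 := by
    intro a b s X h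
    have h0 := congrArg (fun p : Plane => p 0) h
    have h1 := congrArg (fun p : Plane => p 1) h
    simp only [PiLp.add_apply, PiLp.smul_apply, smul_eq_mul,
      Matrix.cons_val_zero, Matrix.cons_val_one, mul_one] at h0 h1
    refine ⟨h1, ?_⟩
    rw [h0, h1]
    ring
  rcases A with ⟨a, b⟩ | ⟨i, r, k⟩ <;> rcases B with ⟨a', b'⟩ | ⟨i', r', k'⟩
  · simp only [CombBlocks, iff_false]
    rintro ⟨hne, c, hc, c', hc', s, hs, h⟩
    have h1 := (hcoord c c' s (Sum.inl (a', b')) h).2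
    simp only [slope] at h1
    rcases lt_trichotomy ((a : ℕ) + N * (b : ℕ)) ((a' : ℕ) + N * (b' : ℕ)) with h2 | h2 | h2
    · have := body_own_lt h2 hc hc'
      linarith
    · exact hne (by rw [grid_inj h2])
    · have := body_own_lt h2 hc' hc
      linarith
  · change (_ ∧ _) ↔ _ ∧ _
    have key := exists_value_iff hM a b (t (a, b)) i' r' k'
    constructor
    · rintro ⟨hne, c, hc, c', hc', s, hs, h⟩
      have h1 := (hcoord c c' s (Sum.inr (i', r', k')) h).2
      simp only [slope] at h1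
      refine key.1 ?_
      obtain ⟨c0, hc0, h2, h3⟩ := exists_core hc
      obtain ⟨h4, h5⟩ := body_ruler hc'
      have hi : ((i' : ℕ) : ℝ) + 1 ≤ M := by exact_mod_cast i'.2
      have hσ : |((i' : ℕ) : ℝ) + 1| ≤ N + M := by
        rw [abs_of_nonneg (by positivity)]
        have : (0 : ℝ) ≤ N := Nat.cast_nonneg _
        linarith
      have h6 := functional_close _ hσ h2 h3
      have h7 := functional_close _ hσ h4 h5
      refine ⟨c0, hc0, ?_⟩
      rw [abs_le] at h6 h7
      rw [abs_lt]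
      constructor <;> linarith [h6.1, h6.2, h7.1, h7.2]
    · intro hcomb
      obtain ⟨c, hc, hval⟩ := key.2 hcomb
      refine ⟨by simp, c, Metric.self_subset_cthickening _ hc, rulerPt N M q i' r' k',
        Metric.self_subset_cthickening _ (show rulerPt N M q i' r' k' ∈
          ({rulerPt N M q i' r' k'} : Set Plane) from rfl), c 1 + spacing N M q, ?_, ?_⟩
      · have := fig_above hN a b _ c hc
        linarith
      · ext j
        fin_cases j
        · change c 0 = rulerPt N M q i' r' k' 0 +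
            (c 1 + spacing N M q) * (((i' : ℕ) : ℝ) + 1)
          rw [ruler_y] at hval
          linarith
        · change c 1 = rulerPt N M q i' r' k' 1 + (c 1 + spacing N M q) * 1
          rw [ruler_y]
          ring
  · simp only [CombBlocks, iff_false]
    rintro ⟨hne, c, hc, c', hc', s, hs, h⟩
    have h1 := (hcoord c c' s (Sum.inl (a', b')) h).1
    have h2 := body_ruler_y hc
    have h3 := body_fig_above hN hc'
    rw [abs_le] at h2
    linarith [h2.2]
  · simp only [CombBlocks, iff_false]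
    rintro ⟨hne, c, hc, c', hc', s, hs, h⟩
    obtain ⟨h1, h1'⟩ := hcoord c c' s (Sum.inr (i', r', k')) h
    simp only [slope] at h1'
    have h2 := body_ruler_y hc
    have h3 := body_ruler_y hc'
    have h4 := (body_ruler hc).1
    have h5 := (body_ruler hc').1
    have h6 := ruler_far (N := N) (M := M) (q := q) (i := i) (i' := i') (r := r) (r' := r')
        (k := k) (k' := k') (fun h => hne (by rw [h]))
    rw [abs_le] at h2 h3 h4 h5
    have hs2 : s ≤ 2 * rad N M := by linarith [h2.2, h3.1]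
    have hi : ((i' : ℕ) : ℝ) + 1 ≤ M := by exact_mod_cast i'.2
    have hi0 : (0 : ℝ) ≤ ((i' : ℕ) : ℝ) + 1 := by positivity
    have hx : c 0 - c' 0 = (((i' : ℕ) : ℝ) + 1) * s := by
      rw [h1] at h1'
      linarith
    have hx2 : (((i' : ℕ) : ℝ) + 1) * s ≤ 1 / 4 := by
      have h7 := rad_mul (N := N) (M := M)
      have h8 : (0 : ℝ) ≤ N := Nat.cast_nonneg _
      calc (((i' : ℕ) : ℝ) + 1) * s ≤ M * (2 * rad N M) :=
            mul_le_mul hi hs2 hs.le (Nat.cast_nonneg _)
        _ ≤ 1 / 4 := by nlinarith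
    have hx1 : 0 ≤ (((i' : ℕ) : ℝ) + 1) * s := mul_nonneg hi0 hs.le
    rcases le_abs.1 h6 with h7 | h7 <;> linarith [h4.1, h4.2, h5.1, h5.2]

theorem figFamily_blockingOrder (hN : 1 ≤ N) (hM : 2 ≤ M)
    (t : Fin N × Fin N → Fin M → Fin (q + 1)) :
    (figFamily hN hM t).BlockingOrder = CombBlocks t := by
  unfold Family.BlockingOrder
  rw [figFamily_blocks]
  funext A B
  apply propext
  constructor
  · intro h
    induction h with
    | single h => exact h
    | tail _ h2 ih =>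
      exfalso
      rename_i X Y _
      rcases A with ⟨a, b⟩ | ⟨i, r, k⟩ <;> rcases X with ⟨a', b'⟩ | ⟨i', r', k'⟩ <;>
        simp [CombBlocks] at ih h2
  · exact Relation.TransGen.single

theorem figFamily_acyclic (hN : 1 ≤ N) (hM : 2 ≤ M)
    (t : Fin N × Fin N → Fin M → Fin (q + 1)) : (figFamily hN hM t).Acyclic := by
  intro X
  rw [figFamily_blockingOrder]
  rcases X with ⟨a, b⟩ | ⟨i, r, k⟩ <;> simp [CombBlocks]

/-- The blocking order determines `t`. -/
theorem combBlocks_injective {t t' : Fin N × Fin N → Fin M → Fin (q + 1)}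
    (h : CombBlocks t = CombBlocks t') : t = t' := by
  funext ⟨a, b⟩ i
  -- the index of the diagonal through `(a, b)`
  have hr : (a : ℕ) + M * N - ((i : ℕ) + 1) * (b : ℕ) < (M + 1) * N := by
    have : (a : ℕ) < N := a.2
    have h2 : (M + 1) * N = M * N + N := by ring
    omega
  have hle : ((i : ℕ) + 1) * (b : ℕ) ≤ M * N := Nat.mul_le_mul i.2 b.2.le
  have key : ∀ k : Fin q, (k : ℕ) < (t (a, b) i : ℕ) ↔ (k : ℕ) < (t' (a, b) i : ℕ) := by
    intro k
    have h1 := congrFun (congrFun h (Sum.inl (a, b)))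
      (Sum.inr (i, ⟨(a : ℕ) + M * N - ((i : ℕ) + 1) * (b : ℕ), hr⟩, k))
    simp only [CombBlocks, eq_iff_iff] at h1
    have h2 : (a : ℕ) + M * N = (a : ℕ) + M * N - ((i : ℕ) + 1) * (b : ℕ) +
      ((i : ℕ) + 1) * (b : ℕ) := by omega
    constructor
    · intro hk
      exact (h1.1 ⟨h2, hk⟩).2
    · intro hk
      exact (h1.2 ⟨h2, hk⟩).2
  apply Fin.ext
  rcases lt_trichotomy (t (a, b) i : ℕ) (t' (a, b) i : ℕ) with h1 | h1 | h1
  · have hq : (t (a, b) i : ℕ) < q := by have := (t' (a, b) i).2; omega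
    have := (key ⟨_, hq⟩).2 h1
    exact absurd this (lt_irrefl _)
  · exact h1
  · have hq : (t' (a, b) i : ℕ) < q := by have := (t (a, b) i).2; omega
    have := (key ⟨_, hq⟩).1 h1
    exact absurd this (lt_irrefl _)

theorem figFamily_directionCount (hN : 1 ≤ N) (hM : 2 ≤ M) (hq : 1 ≤ q)
    (t : Fin N × Fin N → Fin M → Fin (q + 1)) :
    (figFamily hN hM t).directionCount = M + 1 := by
  unfold Family.directionCount
  have hray : ∀ s : ℝ, (!₂[s, 1] : Plane) ≠ 0 := by
    intro s h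
    have := congrArg (fun p : Plane => p 1) h
    simp at this
  set ρ : ℝ → Module.Ray ℝ Plane := fun s => rayOfNeZero ℝ (!₂[s, 1] : Plane) (hray s) with hρ
  have hρinj : Function.Injective ρ := by
    intro s s' h
    have h1 : SameRay ℝ (!₂[s, 1] : Plane) (!₂[s', 1] : Plane) := (ray_eq_iff _ _).1 h
    obtain ⟨c, c', hc, hc', hcc⟩ := h1.exists_pos (hray s) (hray s')
    have h2 := congrArg (fun p : Plane => p 0) hcc
    have h3 := congrArg (fun p : Plane => p 1) hcc
    simp only [PiLp.smul_apply, smul_eq_mul, Matrix.cons_val_zero,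
      Matrix.cons_val_one, mul_one] at h2 h3
    rw [h3] at h2
    exact mul_left_cancel₀ hc'.ne' h2
  have hrange : (Set.range fun X => rayOfNeZero ℝ ((figFamily hN hM t).dir X)
      ((figFamily hN hM t).dir_ne_zero X)) = ρ '' Set.range (slope N M q) := by
    rw [← Set.range_comp]
    rfl
  rw [hrange, Set.ncard_image_of_injective _ hρinj]
  set f : Option (Fin M) → ℝ := fun o => o.elim (-(N : ℝ)) fun i => ((i : ℕ) : ℝ) + 1 with hf
  have hfinj : Function.Injective f := by
    intro o o' h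
    rcases o with _ | i <;> rcases o' with _ | i'
    · rfl
    · exfalso
      simp only [hf, Option.elim_none, Option.elim_some] at h
      have h1 : (0 : ℝ) ≤ N := Nat.cast_nonneg _
      have h2 : (0 : ℝ) ≤ ((i' : ℕ) : ℝ) := Nat.cast_nonneg _
      linarith
    · exfalso
      simp only [hf, Option.elim_none, Option.elim_some] at h
      have h1 : (0 : ℝ) ≤ N := Nat.cast_nonneg _
      have h2 : (0 : ℝ) ≤ ((i : ℕ) : ℝ) := Nat.cast_nonneg _
      linarith
    · simp only [hf, Option.elim_some, add_left_inj, Nat.cast_inj] at h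
      rw [Fin.ext h]
  have hrange2 : Set.range (slope N M q) = Set.range f := by
    ext s
    constructor
    · rintro ⟨(⟨a, b⟩ | ⟨i, r, k⟩), rfl⟩
      · exact ⟨none, rfl⟩
      · exact ⟨some i, rfl⟩
    · rintro ⟨(_ | i), rfl⟩
      · exact ⟨Sum.inl (⟨0, hN⟩, ⟨0, hN⟩), rfl⟩
      · exact ⟨Sum.inr (i, ⟨0, by positivity⟩, ⟨0, hq⟩), rfl⟩
  rw [hrange2, ← Set.image_univ, Set.ncard_image_of_injective _ hfinj, Set.ncard_univ,
    Nat.card_eq_fintype_card, Fintype.card_option, Fintype.card_fin]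

end Pool.Agent.Work.MP_461429_co
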