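import Mathlib
import Pool.Agent.Work.MP_461429_co.Bezout

/-!
# A weak form of the Warren / Milnor-Thom bound

The number of sign vectors (with entries in `{-, 0, +}`) realised by `s` real polynomials of
degree at most `d` in `D` variables is at most `(1 + (2 * d * s + 1) * D) ^ D`.
-/

open MvPolynomial Filter Topology

namespace Pool.Agent.Work.MP_461429_co

variable {σ : Type*} [Fintype σ]

omit [Fintype σ] in
theorem totalDegree_pderiv_le (p : MvPolynomial σ ℝ) (j : σ) :
    (pderiv j p).totalDegree ≤ p.totalDegree - 1 := by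
  classical
  rw [totalDegree]
  refine Finset.sup_le fun m hm => ?_
  rw [mem_support_iff, coeff_pderiv] at hm
  have h1 : coeff (m + Finsupp.single j 1) p ≠ 0 := fun h => hm (by rw [h]; simp)
  have h2 := le_totalDegree (mem_support_iff.2 h1)
  rw [Finsupp.sum_add_index' (fun _ => rfl) (fun _ _ _ => rfl), Finsupp.sum_single_index rfl] at h2
  change (m.sum fun _ e => e) + 1 ≤ p.totalDegree at h2
  change (m.sum fun _ e => e) ≤ p.totalDegree - 1
  omega

/-- **Weak Warren theorem.** If `X` is a finite set of points on which the sign vectors of the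
polynomials `f i` are pairwise distinct, then `X` has at most
`(1 + (2 * d * card ι + 1) * card σ) ^ card σ` elements. -/
theorem card_signPatterns_le {ι : Type*} [Fintype ι] (f : ι → MvPolynomial σ ℝ) (d : ℕ)
    (hf : ∀ i, (f i).totalDegree ≤ d) (X : Finset (σ → ℝ))
    (hX : ∀ x ∈ X, ∀ y ∈ X,
      (∀ i, SignType.sign (eval x (f i)) = SignType.sign (eval y (f i))) → x = y) :
    X.card ≤ (1 + (2 * d * Fintype.card ι + 1) * Fintype.card σ) ^ Fintype.card σ := by
  classical
  -- choice of `ε`
  obtain ⟨ε, hε0, hε⟩ : ∃ ε : ℝ, 0 < ε ∧ ∀ x ∈ X, ∀ i, eval x (f i) ≠ 0 →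
      ε < |eval x (f i)| := by
    have h1 : ∀ᶠ ε in 𝓝[>] (0:ℝ), ∀ x ∈ X, ∀ i, eval x (f i) ≠ 0 → ε < |eval x (f i)| := by
      rw [Finset.eventually_all]
      intro x _
      rw [eventually_all]
      intro i
      by_cases h : eval x (f i) = 0
      · exact Eventually.of_forall fun _ h' => absurd h h'
      · filter_upwards [nhdsWithin_le_nhds (Iio_mem_nhds (abs_pos.2 h))] with ε hε _
        exact hε
    have h2 : ∀ᶠ ε in 𝓝[>] (0:ℝ), 0 < ε := self_mem_nhdsWithin
    obtain ⟨ε, h⟩ := (h2.and h1).exists
    exact ⟨ε, h.1, h.2⟩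
  -- choice of `R`
  obtain ⟨R, hR⟩ : ∃ R : ℝ, ∀ x ∈ X, ∑ j, x j ^ 2 < R := by
    have h1 : ∀ᶠ R in (atTop : Filter ℝ), ∀ x ∈ X, ∑ j, x j ^ 2 < R := by
      rw [Finset.eventually_all]
      intro x _
      exact eventually_gt_atTop _
    exact h1.exists
  -- the polynomial `F`
  set F : MvPolynomial σ ℝ := (C R - ∑ j, MvPolynomial.X j ^ 2) * ∏ i, (f i ^ 2 - C (ε ^ 2)) with hF
  have hFeval : ∀ y, eval y F = (R - ∑ j, y j ^ 2) * ∏ i, (eval y (f i) ^ 2 - ε ^ 2) := by
    intro y
    simp [hF, map_prod]
  have hFdeg : F.totalDegree ≤ 2 + 2 * d * Fintype.card ι := by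
    refine (totalDegree_mul _ _).trans (Nat.add_le_add ?_ ?_)
    · refine (totalDegree_sub _ _).trans (max_le (by simp) ?_)
      refine totalDegree_finsetSum_le fun j _ => ?_
      exact (totalDegree_pow _ _).trans (by simp)
    · refine (totalDegree_finsetProd _ _).trans ?_
      calc ∑ i, (f i ^ 2 - C (ε ^ 2)).totalDegree ≤ ∑ _i : ι, 2 * d := by
            refine Finset.sum_le_sum fun i _ => ?_
            refine (totalDegree_sub _ _).trans (max_le ?_ ((totalDegree_C _).le.trans (Nat.zero_le _)))
            exact (totalDegree_pow _ _).trans (Nat.mul_le_mul_left 2 (hf i))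
        _ = 2 * d * Fintype.card ι := by
            rw [Finset.sum_const, Finset.card_univ, smul_eq_mul, mul_comm]
  -- the cells
  set U : (σ → ℝ) → Set (σ → ℝ) := fun x => {y | ∑ j, y j ^ 2 < R ∧
    ∀ i, 0 < (eval y (f i) - ε) * (eval x (f i) - ε) ∧
      0 < (eval y (f i) + ε) * (eval x (f i) + ε)} with hU
  have hcont : ∀ i, Continuous fun y : σ → ℝ => eval y (f i) := fun i =>
    MvPolynomial.continuous_eval (f i)
  have hcsq : Continuous fun y : σ → ℝ => ∑ j, y j ^ 2 := by fun_prop
  have hUopen : ∀ x, IsOpen (U x) := by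
    intro x
    have : U x = {y | ∑ j, y j ^ 2 < R} ∩ ⋂ i, ({y | 0 < (eval y (f i) - ε) *
        (eval x (f i) - ε)} ∩ {y | 0 < (eval y (f i) + ε) * (eval x (f i) + ε)}) := by
      ext y
      simp [hU]
    rw [this]
    refine (isOpen_lt hcsq continuous_const).inter (isOpen_iInter_of_finite fun i => ?_)
    exact (isOpen_lt continuous_const (((hcont i).sub continuous_const).mul
      continuous_const)).inter (isOpen_lt continuous_const (((hcont i).add continuous_const).mul
      continuous_const))
  have hne1 : ∀ x ∈ X, ∀ i, eval x (f i) - ε ≠ 0 := by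
    intro x hx i h
    have h1 : eval x (f i) = ε := by linarith
    have h2 := hε x hx i (by rw [h1]; exact hε0.ne')
    rw [h1, abs_of_pos hε0] at h2
    exact lt_irrefl _ h2
  have hne2 : ∀ x ∈ X, ∀ i, eval x (f i) + ε ≠ 0 := by
    intro x hx i h
    have h1 : eval x (f i) = -ε := by linarith
    have h2 := hε x hx i (by rw [h1]; linarith)
    rw [h1, abs_neg, abs_of_pos hε0] at h2
    exact lt_irrefl _ h2
  have hmem : ∀ x ∈ X, x ∈ U x := by
    intro x hx
    refine ⟨hR x hx, fun i => ⟨?_, ?_⟩⟩
    · exact mul_self_pos.2 (hne1 x hx i)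
    · exact mul_self_pos.2 (hne2 x hx i)
  have hdisj : ∀ x ∈ X, ∀ x' ∈ X, ∀ y, y ∈ U x → y ∈ U x' → x = x' := by
    intro x hx x' hx' y hy hy'
    refine hX x hx x' hx' fun i => ?_
    have h1 := (hy.2 i).1
    have h2 := (hy.2 i).2
    have h3 := (hy'.2 i).1
    have h4 := (hy'.2 i).2
    have h5 : 0 < (eval x (f i) - ε) * (eval x' (f i) - ε) := by
      have h : 0 < ((eval y (f i) - ε) * (eval x (f i) - ε)) *
        ((eval y (f i) - ε) * (eval x' (f i) - ε)) := mul_pos h1 h3
      have h6 : ((eval y (f i) - ε) * (eval x (f i) - ε)) *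
        ((eval y (f i) - ε) * (eval x' (f i) - ε)) = (eval y (f i) - ε) ^ 2 *
          ((eval x (f i) - ε) * (eval x' (f i) - ε)) := by ring
      rw [h6] at h
      by_contra hn
      exact absurd h (not_lt.2 (mul_nonpos_of_nonneg_of_nonpos (sq_nonneg _) (not_lt.1 hn)))
    have h6 : 0 < (eval x (f i) + ε) * (eval x' (f i) + ε) := by
      have h : 0 < ((eval y (f i) + ε) * (eval x (f i) + ε)) *
        ((eval y (f i) + ε) * (eval x' (f i) + ε)) := mul_pos h2 h4
      have h6 : ((eval y (f i) + ε) * (eval x (f i) + ε)) *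
        ((eval y (f i) + ε) * (eval x' (f i) + ε)) = (eval y (f i) + ε) ^ 2 *
          ((eval x (f i) + ε) * (eval x' (f i) + ε)) := by ring
      rw [h6] at h
      by_contra hn
      exact absurd h (not_lt.2 (mul_nonpos_of_nonneg_of_nonpos (sq_nonneg _) (not_lt.1 hn)))
    rcases lt_trichotomy (eval x (f i)) 0 with hlt | heq | hgt
    · have h7 := hε x hx i hlt.ne
      rw [abs_of_neg hlt] at h7
      have h8 : eval x' (f i) + ε < 0 := by
        by_contra h
        push Not at h
        nlinarith
      rw [sign_neg hlt, sign_neg (by linarith)]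
    · rw [heq] at h5 h6 ⊢
      have h7 : eval x' (f i) < ε := by
        by_contra h
        push Not at h
        nlinarith
      have h8 : -ε < eval x' (f i) := by
        by_contra h
        push Not at h
        nlinarith
      have h9 : eval x' (f i) = 0 := by
        by_contra h
        have := hε x' hx' i h
        rw [lt_abs] at this
        rcases this with h | h <;> linarith
      rw [h9]
    · have h7 := hε x hx i hgt.ne'
      rw [abs_of_pos hgt] at h7
      have h8 : 0 < eval x' (f i) - ε := by
        by_contra h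
        push Not at h
        nlinarith
      rw [sign_pos hgt, sign_pos (by linarith)]
  -- boundedness
  have hball : ∀ x, U x ⊆ Metric.closedBall 0 (|R| + 1) := by
    intro x y hy
    rw [mem_closedBall_zero_iff, pi_norm_le_iff_of_nonneg (by positivity)]
    intro j
    have h1 : y j ^ 2 ≤ ∑ j, y j ^ 2 :=
      Finset.single_le_sum (f := fun j => y j ^ 2) (fun _ _ => sq_nonneg _) (Finset.mem_univ j)
    have h2 : y j ^ 2 < |R| := lt_of_le_of_lt h1 (lt_of_lt_of_le hy.1 (le_abs_self R))
    rw [Real.norm_eq_abs, abs_le]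
    constructor <;> nlinarith [abs_nonneg R]
  have hK : ∀ x, IsCompact (closure (U x)) := fun x =>
    (isCompact_closedBall (0 : σ → ℝ) (|R| + 1)).closure_of_subset (hball x)
  have hKball : ∀ x, closure (U x) ⊆ Metric.closedBall 0 (|R| + 1) := fun x =>
    closure_minimal (hball x) Metric.isClosed_closedBall
  -- `F` vanishes on the boundary of the cells
  have hbd : ∀ x ∈ X, ∀ y ∈ closure (U x), y ∉ U x → eval y F = 0 := by
    intro x hx y hy hyU
    have h1 : ∑ j, y j ^ 2 ≤ R := by
      have : closure (U x) ⊆ {y | ∑ j, y j ^ 2 ≤ R} :=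
        closure_minimal (fun y hy => le_of_lt hy.1) (isClosed_le hcsq continuous_const)
      exact this hy
    have h2 : ∀ i, 0 ≤ (eval y (f i) - ε) * (eval x (f i) - ε) := by
      intro i
      have : closure (U x) ⊆ {y | 0 ≤ (eval y (f i) - ε) * (eval x (f i) - ε)} :=
        closure_minimal (fun y hy => le_of_lt (hy.2 i).1)
          (isClosed_le continuous_const (((hcont i).sub continuous_const).mul continuous_const))
      exact this hy
    have h3 : ∀ i, 0 ≤ (eval y (f i) + ε) * (eval x (f i) + ε) := by
      intro i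
      have : closure (U x) ⊆ {y | 0 ≤ (eval y (f i) + ε) * (eval x (f i) + ε)} :=
        closure_minimal (fun y hy => le_of_lt (hy.2 i).2)
          (isClosed_le continuous_const (((hcont i).add continuous_const).mul continuous_const))
      exact this hy
    by_contra hFy
    rw [hFeval] at hFy
    have h4 : R - ∑ j, y j ^ 2 ≠ 0 := left_ne_zero_of_mul hFy
    have h5 : ∀ i, eval y (f i) ^ 2 - ε ^ 2 ≠ 0 := fun i =>
      Finset.prod_ne_zero_iff.1 (right_ne_zero_of_mul hFy) i (Finset.mem_univ i)
    apply hyU
    refine ⟨lt_of_le_of_ne h1 (fun h => h4 (by rw [h, sub_self])), fun i => ⟨?_, ?_⟩⟩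
    · refine lt_of_le_of_ne (h2 i) (Ne.symm (mul_ne_zero ?_ (hne1 x hx i)))
      intro h
      apply h5 i
      have : eval y (f i) ^ 2 - ε ^ 2 = (eval y (f i) - ε) * (eval y (f i) + ε) := by ring
      rw [this, h, zero_mul]
    · refine lt_of_le_of_ne (h3 i) (Ne.symm (mul_ne_zero ?_ (hne2 x hx i)))
      intro h
      apply h5 i
      have : eval y (f i) ^ 2 - ε ^ 2 = (eval y (f i) - ε) * (eval y (f i) + ε) := by ring
      rw [this, h, mul_zero]
  -- `F` does not vanish at the points of `X`
  have hFx : ∀ x ∈ X, eval x F ≠ 0 := by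
    intro x hx
    rw [hFeval]
    refine mul_ne_zero (by have := hR x hx; linarith) (Finset.prod_ne_zero_iff.2 fun i _ => ?_)
    have : eval x (f i) ^ 2 - ε ^ 2 = (eval x (f i) - ε) * (eval x (f i) + ε) := by ring
    rw [this]
    exact mul_ne_zero (hne1 x hx i) (hne2 x hx i)
  -- choice of the generic linear functional
  set G : σ → MvPolynomial σ ℝ := fun j => pderiv j F with hG
  set N : Set (σ → ℝ) := polyMap G '' {y | (fderiv ℝ (polyMap G) y).det = 0} with hN
  have hNnull : MeasureTheory.volume N = 0 := by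
    refine MeasureTheory.addHaar_image_eq_zero_of_det_fderivWithin_eq_zero
      (μ := MeasureTheory.volume) (f' := fun y => fderiv ℝ (polyMap G) y) ?_ ?_
    · intro y _
      exact (differentiable_polyMap G y).hasFDerivAt.hasFDerivWithinAt
    · intro y hy
      exact hy
  obtain ⟨c, hcN, hc⟩ : ∃ c : σ → ℝ, c ∉ N ∧ ∀ x ∈ X,
      (Fintype.card σ : ℝ) * (2 * (|R| + 1)) * ‖c‖ < |eval x F| := by
    set V : Set (σ → ℝ) := {c | ∀ x ∈ X,
      (Fintype.card σ : ℝ) * (2 * (|R| + 1)) * ‖c‖ < |eval x F|} with hV
    have hVopen : IsOpen V := by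
      have : V = ⋂ x ∈ X, {c : σ → ℝ |
          (Fintype.card σ : ℝ) * (2 * (|R| + 1)) * ‖c‖ < |eval x F|} := by
        ext c
        simp [hV]
      rw [this]
      refine isOpen_biInter_finset fun x _ => ?_
      exact isOpen_lt (continuous_const.mul continuous_norm) continuous_const
    have hV0 : (0 : σ → ℝ) ∈ V := by
      intro x hx
      rw [norm_zero, mul_zero]
      exact abs_pos.2 (hFx x hx)
    by_contra hcon
    push Not at hcon
    have hsub : V ⊆ N := by
      intro c hcV
      by_contra hcN
      obtain ⟨x, hx, h⟩ := hcon c hcN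
      exact absurd (hcV x hx) (not_lt.2 h)
    have h1 : MeasureTheory.volume V = 0 := MeasureTheory.measure_mono_null hsub hNnull
    exact (hVopen.measure_pos MeasureTheory.volume ⟨0, hV0⟩).ne' h1
  -- critical points in the cells
  have hcrit : ∀ x ∈ X, ∃ y ∈ U x, polyMap G y = c := by
    intro x hx
    set h : (σ → ℝ) → ℝ := fun y => eval x F * (eval y F - ∑ j, c j * y j) with hh
    have hhc : Continuous h := by
      have : Continuous fun y : σ → ℝ => eval y F := MvPolynomial.continuous_eval F
      have h2 : Continuous fun y : σ → ℝ => ∑ j, c j * y j := by fun_prop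
      exact continuous_const.mul (this.sub h2)
    obtain ⟨y, hyK, hymax⟩ := (hK x).exists_isMaxOn ⟨x, subset_closure (hmem x hx)⟩
      hhc.continuousOn
    have hyU : y ∈ U x := by
      by_contra hyU
      have h1 : h x ≤ h y := hymax (subset_closure (hmem x hx))
      have h2 : h y = eval x F * (0 - ∑ j, c j * y j) := by
        simp only [hh]
        rw [hbd x hx y hyK hyU]
      have h3 : h x = eval x F * (eval x F - ∑ j, c j * x j) := rfl
      rw [h2, h3] at h1
      have h4 : eval x F * eval x F ≤ eval x F * ∑ j, c j * (x j - y j) := by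
        have : ∑ j, c j * (x j - y j) = ∑ j, c j * x j - ∑ j, c j * y j := by
          rw [← Finset.sum_sub_distrib]
          exact Finset.sum_congr rfl fun j _ => by ring
        rw [this]
        linarith
      have h5 : |∑ j, c j * (x j - y j)| ≤ (Fintype.card σ : ℝ) * (2 * (|R| + 1)) * ‖c‖ := by
        refine (Finset.abs_sum_le_sum_abs _ _).trans ?_
        have h6 : ∀ j ∈ Finset.univ, |c j * (x j - y j)| ≤ ‖c‖ * (2 * (|R| + 1)) := by
          intro j _
          rw [abs_mul]
          refine mul_le_mul ?_ ?_ (abs_nonneg _) (norm_nonneg _)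
          · exact norm_le_pi_norm c j
          · have h7 : |x j| ≤ |R| + 1 := by
              have := hball x (hmem x hx)
              rw [mem_closedBall_zero_iff] at this
              exact (norm_le_pi_norm x j).trans this
            have h8 : |y j| ≤ |R| + 1 := by
              have := hKball x hyK
              rw [mem_closedBall_zero_iff] at this
              exact (norm_le_pi_norm y j).trans this
            calc |x j - y j| ≤ |x j| + |y j| := abs_sub _ _
              _ ≤ 2 * (|R| + 1) := by linarith
        refine (Finset.sum_le_card_nsmul _ _ _ h6).trans (le_of_eq ?_)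
        rw [Finset.card_univ, nsmul_eq_mul]
        ring
      have h9 := hc x hx
      have h10 : |eval x F| * |eval x F| ≤ |eval x F| * |∑ j, c j * (x j - y j)| := by
        rw [abs_mul_abs_self, ← abs_mul]
        exact h4.trans (le_abs_self _)
      have h11 : |eval x F| ≤ |∑ j, c j * (x j - y j)| :=
        le_of_mul_le_mul_left h10 (abs_pos.2 (hFx x hx))
      linarith
    refine ⟨y, hyU, ?_⟩
    have hloc : IsLocalMax h y := by
      filter_upwards [(hUopen x).mem_nhds hyU] with z hz
      exact hymax (subset_closure hz)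
    have hder : HasFDerivAt h (eval x F • ((∑ j, eval y (pderiv j F) •
        (ContinuousLinearMap.proj j : (σ → ℝ) →L[ℝ] ℝ)) - ∑ j, c j •
        (ContinuousLinearMap.proj j : (σ → ℝ) →L[ℝ] ℝ))) y := by
      refine HasFDerivAt.const_mul ((hasFDerivAt_eval F y).sub ?_) _
      have : (fun y : σ → ℝ => ∑ j, c j * y j) =
          (∑ j, c j • (ContinuousLinearMap.proj j : (σ → ℝ) →L[ℝ] ℝ) : (σ → ℝ) →L[ℝ] ℝ) := by
        ext z
        simp [sum_apply]
      rw [this]
      exact ContinuousLinearMap.hasFDerivAt _
    have hzero := hloc.hasFDerivAt_eq_zero hder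
    funext j
    have h1 := congrArg (fun L : (σ → ℝ) →L[ℝ] ℝ => L (Pi.single j 1)) hzero
    simp only [smul_apply, sub_apply, sum_apply, ContinuousLinearMap.proj_apply, smul_eq_mul,
      zero_apply] at h1
    have h2 : ∀ a : σ → ℝ, ∑ k, a k * (Pi.single j (1:ℝ) : σ → ℝ) k = a j := by
      intro a
      rw [Finset.sum_eq_single j]
      · simp
      · intro b _ hb
        rw [Pi.single_eq_of_ne hb, mul_zero]
      · simp
    rw [h2 fun k => eval y (pderiv k F), h2 c] at h1
    rcases mul_eq_zero.1 h1 with h3 | h3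
    · exact absurd h3 (hFx x hx)
    · exact sub_eq_zero.1 h3
  choose! y hyU hyc using hcrit
  have hinj : Set.InjOn y X := by
    intro x hx x' hx' h
    exact hdisj x hx x' hx' (y x) (hyU x hx) (h ▸ hyU x' hx')
  rw [← Finset.card_image_of_injOn hinj]
  set P : σ → MvPolynomial σ ℝ := fun j => pderiv j F - C (c j) with hP
  have hPG : polyMap P = fun z => polyMap G z - c := by
    funext z j
    simp [polyMap, hP, hG]
  refine card_nondegenerate_zeros_le P (2 * d * Fintype.card ι + 1) ?_ (X.image y) ?_ ?_
  · intro j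
    refine (totalDegree_sub _ _).trans (max_le ?_ (by simp))
    refine (totalDegree_pderiv_le F j).trans ?_
    omega
  · intro z hz j
    obtain ⟨x, hx, rfl⟩ := Finset.mem_image.1 hz
    have := congrFun (hyc x hx) j
    simp only [polyMap, hG] at this
    simp only [hP, map_sub, eval_C, this, sub_self]
  · intro z hz hdet
    obtain ⟨x, hx, rfl⟩ := Finset.mem_image.1 hz
    apply hcN
    refine ⟨y x, ?_, hyc x hx⟩
    rw [Set.mem_ofPred_eq, ← hdet, hPG, fderiv_sub_const]

end Pool.Agent.Work.MP_461429_co
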