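import Mathlib
import Pool.Agent.Work.MP_461429_co.Defs
import Pool.Agent.Work.MP_461429_co.SignPatterns

/-!
# The blocking relation of a family of segments is determined by few polynomial signs
-/

open MvPolynomial

namespace Pool.Agent.Work.MP_461429_co

/-- A one dimensional Caratheodory type lemma: if a convex combination of the points
`(e i, c i)` lies on the positive part of the first axis then so does a convex combination of
at most two of them. -/
theorem exists_pair {I : Type*} [Fintype I] (w e c : I → ℝ) (hw : ∀ i, 0 ≤ w i)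
    (hc : ∑ i, w i * c i = 0) (he : 0 < ∑ i, w i * e i) :
    (∃ i, c i = 0 ∧ 0 < e i) ∨ ∃ i j, 0 < c i ∧ c j < 0 ∧ 0 < c i * e j - c j * e i := by
  classical
  by_contra hcon
  push Not at hcon
  obtain ⟨h1, h2⟩ := hcon
  set Pos := Finset.univ.filter fun i => 0 < c i with hPos
  set Neg := Finset.univ.filter fun i => c i < 0 with hNeg
  set Zer := Finset.univ.filter fun i => c i = 0 with hZer
  have hsplit : ∀ g : I → ℝ, ∑ i, g i = ∑ i ∈ Pos, g i + ∑ i ∈ Neg, g i + ∑ i ∈ Zer, g i := by
    intro g
    rw [hPos, hNeg, hZer, Finset.sum_filter, Finset.sum_filter, Finset.sum_filter,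
      ← Finset.sum_add_distrib, ← Finset.sum_add_distrib]
    refine Finset.sum_congr rfl fun i _ => ?_
    rcases lt_trichotomy (c i) 0 with h | h | h
    · simp [h, h.ne, not_lt.2 h.le]
    · simp [h]
    · simp [h, h.ne', not_lt.2 h.le]
  have hz : ∑ i ∈ Zer, w i * e i ≤ 0 := by
    refine Finset.sum_nonpos fun i hi => ?_
    exact mul_nonpos_of_nonneg_of_nonpos (hw i) (h1 i (Finset.mem_filter.1 hi).2)
  have hzc : ∑ i ∈ Zer, w i * c i = 0 := by
    refine Finset.sum_eq_zero fun i hi => ?_
    rw [(Finset.mem_filter.1 hi).2, mul_zero]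
  rw [hsplit fun i => w i * c i, hzc, add_zero] at hc
  rw [hsplit fun i => w i * e i] at he
  have hdouble : ∑ i ∈ Pos, ∑ j ∈ Neg, w i * w j * (c i * e j - c j * e i) ≤ 0 := by
    refine Finset.sum_nonpos fun i hi => Finset.sum_nonpos fun j hj => ?_
    exact mul_nonpos_of_nonneg_of_nonpos (mul_nonneg (hw i) (hw j))
      (h2 i j (Finset.mem_filter.1 hi).2 (Finset.mem_filter.1 hj).2)
  have hexp : ∑ i ∈ Pos, ∑ j ∈ Neg, w i * w j * (c i * e j - c j * e i) =
      (∑ i ∈ Pos, w i * c i) * (∑ j ∈ Neg, w j * e j) -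
        (∑ j ∈ Neg, w j * c j) * (∑ i ∈ Pos, w i * e i) := by
    rw [Finset.sum_mul_sum, Finset.sum_mul_sum, Finset.sum_comm (s := Neg), 
      ← Finset.sum_sub_distrib]
    refine Finset.sum_congr rfl fun i _ => ?_
    rw [← Finset.sum_sub_distrib]
    exact Finset.sum_congr rfl fun j _ => by ring
  rw [hexp] at hdouble
  have hS : 0 ≤ ∑ i ∈ Pos, w i * c i :=
    Finset.sum_nonneg fun i hi => mul_nonneg (hw i) (Finset.mem_filter.1 hi).2.le
  have hneg : ∑ j ∈ Neg, w j * c j = -∑ i ∈ Pos, w i * c i := by linarith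
  rw [hneg] at hdouble
  rcases hS.eq_or_lt with hS0 | hSpos
  · -- all weights on `Pos` and `Neg` vanish
    have hp : ∀ i ∈ Pos, w i = 0 := by
      intro i hi
      have := (Finset.sum_eq_zero_iff_of_nonneg (fun i hi =>
        mul_nonneg (hw i) (Finset.mem_filter.1 hi).2.le)).1 hS0.symm i hi
      rcases mul_eq_zero.1 this with h | h
      · exact h
      · exact absurd h (Finset.mem_filter.1 hi).2.ne'
    have hn : ∀ i ∈ Neg, w i = 0 := by
      intro i hi
      have h0 : ∑ j ∈ Neg, -(w j * c j) = 0 := by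
        rw [Finset.sum_neg_distrib, hneg, ← hS0]; simp
      have := (Finset.sum_eq_zero_iff_of_nonneg (fun i hi => by
        have := mul_nonpos_of_nonneg_of_nonpos (hw i) (Finset.mem_filter.1 hi).2.le
        linarith)).1 h0 i hi
      rcases mul_eq_zero.1 (neg_eq_zero.1 this) with h | h
      · exact h
      · exact absurd h (Finset.mem_filter.1 hi).2.ne
    have h3 : ∑ i ∈ Pos, w i * e i = 0 :=
      Finset.sum_eq_zero fun i hi => by rw [hp i hi, zero_mul]
    have h4 : ∑ i ∈ Neg, w i * e i = 0 :=
      Finset.sum_eq_zero fun i hi => by rw [hn i hi, zero_mul]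
    linarith
  · have h5 : (∑ i ∈ Pos, w i * c i) * (∑ j ∈ Neg, w j * e j + ∑ i ∈ Pos, w i * e i) ≤ 0 := by
      nlinarith
    have h6 : ∑ j ∈ Neg, w j * e j + ∑ i ∈ Pos, w i * e i ≤ 0 := by
      by_contra h
      push Not at h
      exact absurd h5 (not_le.2 (mul_pos hSpos h))
    linarith

/-- The converse of `exists_pair` for two points. -/
theorem pair_combination {e₁ c₁ e₂ c₂ : ℝ} (h1 : 0 < c₁) (h2 : c₂ < 0)
    (h3 : 0 < c₁ * e₂ - c₂ * e₁) :
    ∃ θ : ℝ, 0 ≤ θ ∧ θ ≤ 1 ∧ (1 - θ) * c₁ + θ * c₂ = 0 ∧ 0 < (1 - θ) * e₁ + θ * e₂ := by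
  have h4 : 0 < c₁ - c₂ := by linarith
  refine ⟨c₁ / (c₁ - c₂), by positivity, ?_, ?_, ?_⟩
  · rw [div_le_one h4]; linarith
  · field_simp
    ring
  · have : (1 - c₁ / (c₁ - c₂)) * e₁ + c₁ / (c₁ - c₂) * e₂ = (c₁ * e₂ - c₂ * e₁) / (c₁ - c₂) := by
      field_simp
      ring
    rw [this]
    exact div_pos h3 h4

section

variable {T : Type} [Fintype T] [DecidableEq T]

/-- The coordinate `c` of the endpoint `s` of the segment labelled `A` (a variable). -/
noncomputable def ptP (A : T) (s : Bool) (c : Bool) : MvPolynomial (T × Bool × Bool ⊕ T × Bool) ℝ :=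
  X (Sum.inl (A, s, c))

/-- The coordinate `c` of the direction of the segment labelled `A` (a variable). -/
noncomputable def dirP (A : T) (c : Bool) : MvPolynomial (T × Bool × Bool ⊕ T × Bool) ℝ :=
  X (Sum.inr (A, c))

/-- Cross product of the direction of `B` with a difference of endpoints. -/
noncomputable def crossP (A B : T) (s : Bool × Bool) :
    MvPolynomial (T × Bool × Bool ⊕ T × Bool) ℝ :=
  dirP B false * (ptP A s.1 true - ptP B s.2 true) -
    dirP B true * (ptP A s.1 false - ptP B s.2 false)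

/-- Inner product of the direction of `B` with a difference of endpoints. -/
noncomputable def dotP (A B : T) (s : Bool × Bool) :
    MvPolynomial (T × Bool × Bool ⊕ T × Bool) ℝ :=
  dirP B false * (ptP A s.1 false - ptP B s.2 false) +
    dirP B true * (ptP A s.1 true - ptP B s.2 true)

/-- The index type of the polynomials. -/
abbrev PolyIndex (T : Type) : Type :=
  T × T × ((Bool × Bool) ⊕ (Bool × Bool) ⊕ ((Bool × Bool) × (Bool × Bool)))

/-- The polynomials whose signs determine the blocking relation. -/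
noncomputable def blockPoly : PolyIndex T → MvPolynomial (T × Bool × Bool ⊕ T × Bool) ℝ
  | (A, B, Sum.inl s) => crossP A B s
  | (A, B, Sum.inr (Sum.inl s)) => dotP A B s
  | (A, B, Sum.inr (Sum.inr (s, s'))) => crossP A B s * dotP A B s' - crossP A B s' * dotP A B s

omit [Fintype T] [DecidableEq T] in
theorem totalDegree_lin (a b : MvPolynomial (T × Bool × Bool ⊕ T × Bool) ℝ)
    (ha : a.totalDegree ≤ 1) (hb : b.totalDegree ≤ 1) : (a - b).totalDegree ≤ 1 :=
  (totalDegree_sub _ _).trans (max_le ha hb)

omit [Fintype T] [DecidableEq T] in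
theorem totalDegree_crossP (A B : T) (s : Bool × Bool) : (crossP A B s).totalDegree ≤ 2 := by
  unfold crossP ptP dirP
  refine (totalDegree_sub _ _).trans (max_le ?_ ?_)
  · refine (totalDegree_mul _ _).trans (Nat.add_le_add (totalDegree_X _).le ?_ : _ ≤ 1 + 1)
    exact totalDegree_lin _ _ (by simp) (by simp)
  · refine (totalDegree_mul _ _).trans (Nat.add_le_add (totalDegree_X _).le ?_ : _ ≤ 1 + 1)
    exact totalDegree_lin _ _ (by simp) (by simp)

omit [Fintype T] [DecidableEq T] in
theorem totalDegree_dotP (A B : T) (s : Bool × Bool) : (dotP A B s).totalDegree ≤ 2 := by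
  unfold dotP ptP dirP
  refine (totalDegree_add _ _).trans (max_le ?_ ?_)
  · refine (totalDegree_mul _ _).trans (Nat.add_le_add (totalDegree_X _).le ?_ : _ ≤ 1 + 1)
    exact totalDegree_lin _ _ (by simp) (by simp)
  · refine (totalDegree_mul _ _).trans (Nat.add_le_add (totalDegree_X _).le ?_ : _ ≤ 1 + 1)
    exact totalDegree_lin _ _ (by simp) (by simp)

omit [Fintype T] [DecidableEq T] in
theorem totalDegree_blockPoly (k : PolyIndex T) : (blockPoly k).totalDegree ≤ 4 := by
  obtain ⟨A, B, s | s | ⟨s, s'⟩⟩ := k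
  · exact (totalDegree_crossP A B s).trans (by norm_num)
  · exact (totalDegree_dotP A B s).trans (by norm_num)
  · refine (totalDegree_sub _ _).trans (max_le ?_ ?_)
    · exact (totalDegree_mul _ _).trans
        (Nat.add_le_add (totalDegree_crossP A B s) (totalDegree_dotP A B s'))
    · exact (totalDegree_mul _ _).trans
        (Nat.add_le_add (totalDegree_crossP A B s') (totalDegree_dotP A B s))

/-- The relation read off from the signs of the polynomials `blockPoly` at `x`. -/
def signBlocks (x : (T × Bool × Bool ⊕ T × Bool) → ℝ) (A B : T) : Prop :=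
  A ≠ B ∧ ((∃ s, eval x (crossP A B s) = 0 ∧ 0 < eval x (dotP A B s)) ∨
    ∃ s s', 0 < eval x (crossP A B s) ∧ eval x (crossP A B s') < 0 ∧
      0 < eval x (crossP A B s * dotP A B s' - crossP A B s' * dotP A B s))

omit [Fintype T] [DecidableEq T] in
/-- The relation `signBlocks x` depends only on the signs of the polynomials at `x`. -/
theorem signBlocks_congr {x y : (T × Bool × Bool ⊕ T × Bool) → ℝ}
    (h : ∀ k : PolyIndex T, SignType.sign (eval x (blockPoly k)) =
      SignType.sign (eval y (blockPoly k))) : signBlocks x = signBlocks y := by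
  have hpos : ∀ k : PolyIndex T, 0 < eval x (blockPoly k) ↔ 0 < eval y (blockPoly k) := by
    intro k
    rw [← sign_eq_one_iff, ← sign_eq_one_iff, h k]
  have hneg : ∀ k : PolyIndex T, eval x (blockPoly k) < 0 ↔ eval y (blockPoly k) < 0 := by
    intro k
    rw [← sign_eq_neg_one_iff, ← sign_eq_neg_one_iff, h k]
  have hzero : ∀ k : PolyIndex T, eval x (blockPoly k) = 0 ↔ eval y (blockPoly k) = 0 := by
    intro k
    rw [← sign_eq_zero_iff, h k, sign_eq_zero_iff]
  funext A B
  unfold signBlocks
  have e1 : ∀ s, (eval x (crossP A B s) = 0 ↔ eval y (crossP A B s) = 0) := fun s =>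
    hzero (A, B, Sum.inl s)
  have e2 : ∀ s, (0 < eval x (dotP A B s) ↔ 0 < eval y (dotP A B s)) := fun s =>
    hpos (A, B, Sum.inr (Sum.inl s))
  have e3 : ∀ s, (0 < eval x (crossP A B s) ↔ 0 < eval y (crossP A B s)) := fun s =>
    hpos (A, B, Sum.inl s)
  have e4 : ∀ s, (eval x (crossP A B s) < 0 ↔ eval y (crossP A B s) < 0) := fun s =>
    hneg (A, B, Sum.inl s)
  have e5 : ∀ s s', (0 < eval x (crossP A B s * dotP A B s' - crossP A B s' * dotP A B s) ↔
      0 < eval y (crossP A B s * dotP A B s' - crossP A B s' * dotP A B s)) := fun s s' =>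
    hpos (A, B, Sum.inr (Sum.inr (s, s')))
  simp only [e1, e2, e3, e4, e5]

/-- The parameter vector of a family of segments. -/
def paramVec (p : T → Bool → Plane) (d : T → Plane) : (T × Bool × Bool ⊕ T × Bool) → ℝ
  | Sum.inl (A, s, c) => p A s (if c then 1 else 0)
  | Sum.inr (A, c) => d A (if c then 1 else 0)

omit [Fintype T] [DecidableEq T] in
theorem eval_crossP (p : T → Bool → Plane) (d : T → Plane) (A B : T) (s : Bool × Bool) :
    eval (paramVec p d) (crossP A B s) =
      d B 0 * (p A s.1 1 - p B s.2 1) - d B 1 * (p A s.1 0 - p B s.2 0) := by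
  simp [crossP, ptP, dirP, paramVec]

omit [Fintype T] [DecidableEq T] in
theorem eval_dotP (p : T → Bool → Plane) (d : T → Plane) (A B : T) (s : Bool × Bool) :
    eval (paramVec p d) (dotP A B s) =
      d B 0 * (p A s.1 0 - p B s.2 0) + d B 1 * (p A s.1 1 - p B s.2 1) := by
  simp [dotP, ptP, dirP, paramVec]

/-- A vector with vanishing cross product and positive inner product with `d` is a positive
multiple of `d`. -/
theorem exists_pos_smul (d v : Plane) (hc : d 0 * v 1 - d 1 * v 0 = 0)
    (he : 0 < d 0 * v 0 + d 1 * v 1) : ∃ t : ℝ, 0 < t ∧ v = t • d := by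
  have hd : 0 < d 0 ^ 2 + d 1 ^ 2 := by
    by_contra h
    push Not at h
    have h0 : d 0 = 0 := by nlinarith [sq_nonneg (d 0), sq_nonneg (d 1)]
    have h1 : d 1 = 0 := by nlinarith [sq_nonneg (d 0), sq_nonneg (d 1)]
    rw [h0, h1] at he
    simp at he
  refine ⟨(d 0 * v 0 + d 1 * v 1) / (d 0 ^ 2 + d 1 ^ 2), div_pos he hd, ?_⟩
  ext i
  fin_cases i
  · simp only [Fin.zero_eta, PiLp.smul_apply, smul_eq_mul]
    rw [div_mul_eq_mul_div, eq_div_iff hd.ne']
    linear_combination (-d 1) * hc
  · simp only [Fin.mk_one, PiLp.smul_apply, smul_eq_mul]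
    rw [div_mul_eq_mul_div, eq_div_iff hd.ne']
    linear_combination (d 0) * hc

omit [Fintype T] [DecidableEq T] in
theorem mem_segment_endpoint (p : T → Bool → Plane) (A : T) (s : Bool) :
    p A s ∈ segment ℝ (p A false) (p A true) := by
  cases s
  · exact left_mem_segment ℝ _ _
  · exact right_mem_segment ℝ _ _

omit [Fintype T] [DecidableEq T] in
/-- The blocking relation of a family of segments is read off from polynomial signs. -/
theorem blocks_iff_signBlocks (p : T → Bool → Plane) (d : T → Plane) (A B : T) (hd : d B ≠ 0) :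
    (A ≠ B ∧ ∃ a ∈ segment ℝ (p A false) (p A true), ∃ b ∈ segment ℝ (p B false) (p B true),
      ∃ t : ℝ, 0 < t ∧ a = b + t • d B) ↔ signBlocks (paramVec p d) A B := by
  unfold signBlocks
  refine and_congr_right fun hAB => ?_
  constructor
  · rintro ⟨a, ha, b, hb, t, ht, hab⟩
    rw [segment_eq_image] at ha hb
    obtain ⟨α, ⟨hα0, hα1⟩, rfl⟩ := ha
    obtain ⟨β, ⟨hβ0, hβ1⟩, rfl⟩ := hb
    have hx := congrArg (fun v : Plane => v 0) hab
    have hy := congrArg (fun v : Plane => v 1) hab
    simp only [PiLp.add_apply, PiLp.smul_apply, smul_eq_mul] at hx hy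
    have hdd : 0 < d B 0 ^ 2 + d B 1 ^ 2 := by
      by_contra h
      push Not at h
      apply hd
      ext i
      fin_cases i
      · change d B 0 = 0
        nlinarith [sq_nonneg (d B 0), sq_nonneg (d B 1)]
      · change d B 1 = 0
        nlinarith [sq_nonneg (d B 0), sq_nonneg (d B 1)]
    have key := exists_pair (I := Bool × Bool)
      (fun s => (if s.1 then α else 1 - α) * (if s.2 then β else 1 - β))
      (fun s => eval (paramVec p d) (dotP A B s)) (fun s => eval (paramVec p d) (crossP A B s))
      ?_ ?_ ?_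
    · rcases key with ⟨s, h1, h2⟩ | ⟨s, s', h1, h2, h3⟩
      · exact Or.inl ⟨s, h1, h2⟩
      · refine Or.inr ⟨s, s', h1, h2, ?_⟩
        rw [map_sub, map_mul, map_mul]
        exact h3
    · rintro ⟨s, s'⟩
      refine mul_nonneg ?_ ?_
      · cases s <;> simp <;> linarith
      · cases s' <;> simp <;> linarith
    · simp only [eval_crossP, Fintype.sum_prod_type, Fintype.sum_bool, if_true, Bool.false_eq_true,
        if_false]
      have e1 : (1 - α) * (p A false) 0 + α * (p A true) 0 - ((1 - β) * (p B false) 0 +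
        β * (p B true) 0) = t * d B 0 := by linarith
      have e2 : (1 - α) * (p A false) 1 + α * (p A true) 1 - ((1 - β) * (p B false) 1 +
        β * (p B true) 1) = t * d B 1 := by linarith
      linear_combination (d B 0) * e2 - (d B 1) * e1
    · simp only [eval_dotP, Fintype.sum_prod_type, Fintype.sum_bool, if_true, Bool.false_eq_true,
        if_false]
      have e1 : (1 - α) * (p A false) 0 + α * (p A true) 0 - ((1 - β) * (p B false) 0 +
        β * (p B true) 0) = t * d B 0 := by linarith
      have e2 : (1 - α) * (p A false) 1 + α * (p A true) 1 - ((1 - β) * (p B false) 1 +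
        β * (p B true) 1) = t * d B 1 := by linarith
      have e3 : 0 < t * (d B 0 ^ 2 + d B 1 ^ 2) := mul_pos ht hdd
      refine lt_of_lt_of_eq e3 ?_
      linear_combination (-(d B 0)) * e1 - (d B 1) * e2
  · rintro (⟨s, h1, h2⟩ | ⟨s, s', h1, h2, h3⟩)
    · rw [eval_crossP] at h1
      rw [eval_dotP] at h2
      obtain ⟨t, ht, hv⟩ := exists_pos_smul (d B) (p A s.1 - p B s.2) (by simpa using h1)
        (by simpa using h2)
      refine ⟨p A s.1, mem_segment_endpoint p A s.1, p B s.2, mem_segment_endpoint p B s.2, t, ht,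
        ?_⟩
      rw [← hv]
      abel
    · rw [map_sub, map_mul, map_mul] at h3
      obtain ⟨θ, hθ0, hθ1, hc, he⟩ := pair_combination h1 h2 h3
      rw [eval_crossP, eval_crossP] at hc
      rw [eval_dotP, eval_dotP] at he
      set a : Plane := (1 - θ) • p A s.1 + θ • p A s'.1 with ha
      set b : Plane := (1 - θ) • p B s.2 + θ • p B s'.2 with hb
      have haA : a ∈ segment ℝ (p A false) (p A true) :=
        (convex_segment _ _) (mem_segment_endpoint p A s.1) (mem_segment_endpoint p A s'.1)
          (by linarith) hθ0 (by ring)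
      have hbB : b ∈ segment ℝ (p B false) (p B true) :=
        (convex_segment _ _) (mem_segment_endpoint p B s.2) (mem_segment_endpoint p B s'.2)
          (by linarith) hθ0 (by ring)
      obtain ⟨t, ht, hv⟩ := exists_pos_smul (d B) (a - b) (by
          simp only [ha, hb, PiLp.sub_apply, PiLp.add_apply, PiLp.smul_apply, smul_eq_mul]
          linear_combination hc) (by
          simp only [ha, hb, PiLp.sub_apply, PiLp.add_apply, PiLp.smul_apply, smul_eq_mul]
          refine lt_of_lt_of_eq he ?_
          ring)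
      refine ⟨a, haA, b, hbB, t, ht, ?_⟩
      rw [← hv]
      abel

end

end Pool.Agent.Work.MP_461429_co
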