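import Mathlib
import Pool.Agent.Work.MP_461429_co.Segments
import Pool.Agent.Work.MP_461429_co.Construction

/-!
# Comparing the two counts
-/

open MvPolynomial

namespace Pool.Agent.Work.MP_461429_co

/-- The number of labelled blocking orders of families of segments (with any number of directions
of motion) is at most `n ^ (C n)`, in an explicit form. -/
theorem card_segment_orders_le {T α : Type} [Fintype T] [Fintype α] (R : α → (T → T → Prop))
    (hR : Function.Injective R)
    (hrep : ∀ a, ∃ G : Family T, G.IsSegmentFamily ∧ G.BlockingOrder = R a) :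
    Fintype.card α ≤ (1 + (192 * Fintype.card T ^ 2 + 1) * (6 * Fintype.card T)) ^
      (6 * Fintype.card T) := by
  classical
  choose G hG hGR using hrep
  choose p0 p1 hp using hG
  set p : α → T → Bool → Plane := fun a A s => if s then p1 a A else p0 a A with hpdef
  set x : α → (T × Bool × Bool ⊕ T × Bool) → ℝ := fun a => paramVec (p a) (G a).dir with hx
  have hblocks : ∀ a, (G a).Blocks = signBlocks (x a) := by
    intro a
    funext A B
    apply propext
    rw [hx, ← blocks_iff_signBlocks (p a) (G a).dir A B ((G a).dir_ne_zero B)]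
    unfold Family.Blocks
    rw [hp a A, hp a B]
    simp [hpdef]
  have hinj : ∀ a b, (∀ k : PolyIndex T, SignType.sign (eval (x a) (blockPoly k)) =
      SignType.sign (eval (x b) (blockPoly k))) → a = b := by
    intro a b h
    apply hR
    rw [← hGR a, ← hGR b]
    unfold Family.BlockingOrder
    rw [hblocks a, hblocks b, signBlocks_congr h]
  have hxinj : Function.Injective x := by
    intro a b h
    exact hinj a b fun k => by rw [h]
  have key := card_signPatterns_le (σ := T × Bool × Bool ⊕ T × Bool) (ι := PolyIndex T) blockPoly 4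
    totalDegree_blockPoly (Finset.univ.image x) (by
      intro y hy z hz h
      obtain ⟨a, -, rfl⟩ := Finset.mem_image.1 hy
      obtain ⟨b, -, rfl⟩ := Finset.mem_image.1 hz
      rw [hinj a b h])
  rw [Finset.card_image_of_injective _ hxinj, Finset.card_univ] at key
  have h1 : Fintype.card (T × Bool × Bool ⊕ T × Bool) = 6 * Fintype.card T := by
    simp only [Fintype.card_sum, Fintype.card_prod, Fintype.card_bool]
    ring
  have h2 : 2 * 4 * Fintype.card (PolyIndex T) = 192 * Fintype.card T ^ 2 := by
    simp only [Fintype.card_sum, Fintype.card_prod, Fintype.card_bool]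
    ring
  rw [h1, h2] at key
  exact key

/-- Relabelling a family. -/
def Family.comap {ι κ : Type} (G : Family κ) (e : ι ≃ κ) : Family ι where
  body := fun X => G.body (e X)
  dir := fun X => G.dir (e X)
  nonempty_body := fun X => G.nonempty_body (e X)
  isCompact_body := fun X => G.isCompact_body (e X)
  convex_body := fun X => G.convex_body (e X)
  disjoint_body := fun X Y h => G.disjoint_body (e X) (e Y) (fun h' => h (e.injective h'))
  dir_ne_zero := fun X => G.dir_ne_zero (e X)

theorem Family.comap_blockingOrder {ι κ : Type} (G : Family κ) (e : ι ≃ κ) (A B : ι) :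
    (G.comap e).BlockingOrder A B ↔ G.BlockingOrder (e A) (e B) := by
  unfold Family.BlockingOrder
  have hb : ∀ A B, (G.comap e).Blocks A B ↔ G.Blocks (e A) (e B) := by
    intro A B
    unfold Family.Blocks Family.comap
    simp
  constructor
  · intro h
    exact Relation.TransGen.lift e (fun A B h => (hb A B).1 h) A B h
  · intro h
    have h2 : Relation.TransGen (G.comap e).Blocks (e.symm (e A)) (e.symm (e B)) :=
      Relation.TransGen.lift e.symm (fun A B h => (hb _ _).2 (by simpa using h)) (e A) (e B) h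
    simpa using h2

/-- The final comparison of the two counts. -/
theorem final_inequality (M : ℕ) (hM : 73 ≤ M) :
    ∃ q N : ℕ, 1 ≤ q ∧ 1 ≤ N ∧
      (1 + (192 * Fintype.card (Label N M q) ^ 2 + 1) * (6 * Fintype.card (Label N M q))) ^
        (6 * Fintype.card (Label N M q)) <
      Fintype.card (Fin N × Fin N → Fin M → Fin (q + 1)) := by
  obtain ⟨q, hq⟩ : ∃ q, q = 9600 ^ 12 * (M * (M + 1)) ^ 72 := ⟨_, rfl⟩
  obtain ⟨N, hN⟩ : ∃ N, N = M * (M + 1) * q := ⟨_, rfl⟩
  have hMpos : 0 < M * (M + 1) := by positivity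
  have hqpos : 0 < q := by rw [hq]; positivity
  have hNpos : 0 < N := by rw [hN]; positivity
  refine ⟨q, N, hqpos, hNpos, ?_⟩
  have hcard : Fintype.card (Label N M q) = 2 * N ^ 2 := by
    simp only [Fintype.card_sum, Fintype.card_prod, Fintype.card_fin]
    have : M * ((M + 1) * N * q) = N * (M * (M + 1) * q) := by ring
    rw [this, ← hN]
    ring
  have hcard2 : Fintype.card (Fin N × Fin N → Fin M → Fin (q + 1)) = ((q + 1) ^ M) ^ (N ^ 2) := by
    simp only [Fintype.card_fun, Fintype.card_prod, Fintype.card_fin]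
    rw [sq]
  rw [hcard, hcard2]
  have h1 : 1 + (192 * (2 * N ^ 2) ^ 2 + 1) * (6 * (2 * N ^ 2)) ≤ 9600 * N ^ 6 := by
    have hN2 : 1 ≤ N ^ 2 := Nat.one_le_pow _ _ hNpos
    have hN6 : N ^ 2 ≤ N ^ 6 := Nat.pow_le_pow_right hNpos (by norm_num)
    have h3 : 1 + (192 * (2 * N ^ 2) ^ 2 + 1) * (6 * (2 * N ^ 2)) =
        9216 * N ^ 6 + 12 * N ^ 2 + 1 := by ring
    rw [h3]
    omega
  have h2 : (9600 * N ^ 6) ^ 12 < (q + 1) ^ M := by
    have h3 : (9600 * N ^ 6) ^ 12 = q ^ 73 := by
      have h4 : (9600 * N ^ 6) ^ 12 = 9600 ^ 12 * N ^ 72 := by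
        rw [mul_pow, ← pow_mul]
      have h5 : N ^ 72 = (M * (M + 1)) ^ 72 * q ^ 72 := by
        rw [hN, mul_pow]
      rw [h4, h5, ← mul_assoc, ← hq]
      exact (pow_succ' q 72).symm
    rw [h3]
    calc q ^ 73 < (q + 1) ^ 73 := Nat.pow_lt_pow_left (Nat.lt_succ_self q) (by norm_num)
      _ ≤ (q + 1) ^ M := Nat.pow_le_pow_right (Nat.succ_pos q) hM
  calc (1 + (192 * (2 * N ^ 2) ^ 2 + 1) * (6 * (2 * N ^ 2))) ^ (6 * (2 * N ^ 2))
      ≤ (9600 * N ^ 6) ^ (6 * (2 * N ^ 2)) := Nat.pow_le_pow_left h1 _
    _ = ((9600 * N ^ 6) ^ 12) ^ (N ^ 2) := by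
        rw [← pow_mul]
        congr 1
        ring
    _ < ((q + 1) ^ M) ^ (N ^ 2) :=
        Nat.pow_lt_pow_left h2 (by positivity)

/-- For every `M ≥ 73` there is a family of convex figures with `M + 1` directions of motion
whose blocking order is not isomorphic to the blocking order of any family of segments. -/
theorem exists_family (M : ℕ) (hM : 73 ≤ M) :
    ∃ (ι : Type) (_ : Fintype ι) (F : Family ι), F.Acyclic ∧ F.directionCount = M + 1 ∧
      (∀ X, (interior (F.body X)).Nonempty) ∧
      ∀ (κ : Type) (G : Family κ), G.IsSegmentFamily →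
        IsEmpty (F.BlockingOrder ≃r G.BlockingOrder) := by
  obtain ⟨q, N, hq, hN, hlt⟩ := final_inequality M hM
  have hM2 : 2 ≤ M := by omega
  by_contra hcon
  push Not at hcon
  refine absurd (card_segment_orders_le (T := Label N M q)
    (α := Fin N × Fin N → Fin M → Fin (q + 1)) (fun t => CombBlocks t)
    (fun t t' h => combBlocks_injective h) ?_) (not_le.2 hlt)
  intro t
  obtain ⟨κ, G, hG, ⟨e⟩⟩ := hcon (Label N M q) inferInstance (figFamily hN hM2 t)
    (figFamily_acyclic hN hM2 t) (figFamily_directionCount hN hM2 hq t)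
    (figFamily_interior hN hM2 t)
  refine ⟨G.comap e.toEquiv, fun X => hG (e X), ?_⟩
  rw [← figFamily_blockingOrder hN hM2 t]
  funext A B
  apply propext
  rw [Family.comap_blockingOrder]
  exact e.map_rel_iff

end Pool.Agent.Work.MP_461429_co
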